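import Pool.Agent.U623.HA.Gen
import Pool.Agent.TH456.TM.Inst

/-! # Uniform version for integer polynomials in `π` and the values -/

set_option autoImplicit false

open Filter Topology

namespace Pool.Agent.U623.HA

open Pool.Agent.U623.HF
open Pool.Agent.H447R2.MZ (H H_cons H_cons_succ H_nil H_nonneg H_mono val Adm H_le_val)

/-- the evaluation at `π` -/
noncomputable def evPi : Polynomial ℤ →+* ℝ := (Polynomial.aeval Real.pi : Polynomial ℤ →ₐ[ℤ] ℝ).toRingHom

lemma evPi_inj : Function.Injective evPi := by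
  rw [injective_iff_map_eq_zero]
  intro P hP
  by_contra hP0
  obtain ⟨κ, c, hκ, hc, h⟩ := Pool.Agent.TH456.TM.measT_pi P.natDegree
  obtain ⟨B, hB⟩ : ∃ B : ℝ, B = 1 + ∑ i ∈ Finset.range (P.natDegree + 1), |(P.coeff i : ℝ)| := ⟨_, rfl⟩
  have hB0 : 0 ≤ ∑ i ∈ Finset.range (P.natDegree + 1), |(P.coeff i : ℝ)| :=
    Finset.sum_nonneg fun _ _ => abs_nonneg _
  have h1 := h P hP0 le_rfl B (by rw [hB]; linarith) (fun j => by
    rw [hB]
    by_cases hj : j < P.natDegree + 1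
    · have := Finset.single_le_sum (f := fun i => |(P.coeff i : ℝ)|) (fun _ _ => abs_nonneg _)
        (Finset.mem_range.2 hj)
      beta_reduce at this
      linarith
    · rw [Polynomial.coeff_eq_zero_of_natDegree_lt (by omega)]
      simp only [Int.cast_zero, abs_zero]
      linarith)
  have h2 : Polynomial.aeval ((Real.pi : ℝ) : ℂ) P = ((evPi P : ℝ) : ℂ) := by
    have := Polynomial.aeval_algebraMap_apply ℂ (Real.pi : ℝ) P
    simpa [evPi] using this
  rw [h2, hP] at h1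
  simp at h1
  linarith

variable {σ : Type*}

/-- finitely many polynomials -/
lemma fin_set (U : Finset σ) (D h : ℕ) : {P : MvPolynomial σ (Polynomial ℤ) | P.vars ⊆ U ∧ P.totalDegree ≤ D ∧
    ∀ m, (P.coeff m).natDegree ≤ h ∧ ∀ i, |(P.coeff m).coeff i| ≤ h}.Finite := by
  classical
  obtain ⟨M, hM⟩ : ∃ M : Finset (σ →₀ ℕ), M = (Finset.range (D + 1)).biUnion
      (fun k => Finset.finsuppAntidiag U k) := ⟨_, rfl⟩
  have hmem : ∀ P : MvPolynomial σ (Polynomial ℤ), P.vars ⊆ U → P.totalDegree ≤ D → ∀ m, m ∉ M →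
      P.coeff m = 0 := by
    intro P h1 h2 m hm
    by_contra hne
    apply hm
    have hms : m ∈ P.support := MvPolynomial.mem_support_iff.2 hne
    rw [hM, Finset.mem_biUnion]
    refine ⟨m.sum fun _ e => e, Finset.mem_range.2 (Nat.lt_succ_of_le
      ((MvPolynomial.le_totalDegree hms).trans h2)), ?_⟩
    rw [Finset.mem_finsuppAntidiag']
    refine ⟨rfl, fun x hx => h1 ?_⟩
    rw [MvPolynomial.mem_vars_iff_mem_support]
    exact ⟨m, hms, hx⟩
  have hfin : {g : M × Fin (h + 1) → ℤ | ∀ p, g p ∈ Set.Icc (-(h : ℤ)) h}.Finite :=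
    Set.Finite.pi' fun _ => Set.finite_Icc _ _
  refine Set.Finite.of_injOn (f := fun (P : MvPolynomial σ (Polynomial ℤ)) (p : M × Fin (h + 1)) =>
    (P.coeff p.1).coeff (p.2 : ℕ)) ?_ ?_ hfin
  · intro P hP p
    have := (hP.2.2 p.1).2 p.2
    exact abs_le.1 this
  · intro P hP Q hQ hPQ
    ext m i
    by_cases hm : m ∈ M
    · by_cases hi : i < h + 1
      · exact congrFun hPQ (⟨m, hm⟩, ⟨i, hi⟩)
      · rw [Polynomial.coeff_eq_zero_of_natDegree_lt (lt_of_le_of_lt (hP.2.2 m).1 (by omega)),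
          Polynomial.coeff_eq_zero_of_natDegree_lt (lt_of_le_of_lt (hQ.2.2 m).1 (by omega))]
    · rw [hmem P hP.1 hP.2.1 m hm, hmem Q hQ.1 hQ.2.1 m hm]

theorem unif (W : σ → List ℕ) (hW : ∀ u, RA (W u)) (hinj : Function.Injective W) {D : ℕ}
    (hD : 2 ≤ D) (U : Finset σ) (h : ℕ) :
    ∃ n0 : ℕ, ∀ P : MvPolynomial σ (Polynomial ℤ), P ≠ 0 → P.vars ⊆ U → P.totalDegree ≤ D →
      (∀ m, (P.coeff m).natDegree ≤ h ∧ ∀ i, |(P.coeff m).coeff i| ≤ h) →
      ∀ (a : ℕ) (s : List ℕ), (∀ x ∈ s, 1 ≤ x) → n0 ≤ s.length + 1 → (s.length + 1) ^ (D + 1) ≤ a →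
      val (a :: s) ^ (D + 1) ≤ |MvPolynomial.eval (fun u => val ((W u).reverse ++ a :: s))
        (MvPolynomial.map evPi P)| := by
  classical
  have hg : ∀ P : MvPolynomial σ (Polynomial ℤ), ∃ n0 : ℕ, P ≠ 0 → P.totalDegree ≤ D →
      ∀ (a : ℕ) (s : List ℕ), (∀ x ∈ s, 1 ≤ x) → n0 ≤ s.length + 1 → (s.length + 1) ^ (D + 1) ≤ a →
      val (a :: s) ^ (D + 1) ≤ |MvPolynomial.eval (fun u => val ((W u).reverse ++ a :: s))
        (MvPolynomial.map evPi P)| := by
    intro P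
    by_cases hP : P ≠ 0 ∧ P.totalDegree ≤ D
    · have h1 : MvPolynomial.map evPi P ≠ 0 := by
        intro h2
        apply hP.1
        exact MvPolynomial.map_injective evPi evPi_inj (by rw [h2, map_zero])
      obtain ⟨n0, h3⟩ := gen W hW hinj hD (MvPolynomial.map evPi P)
        (le_trans (Finset.sup_mono (MvPolynomial.support_map_subset _ _)) hP.2) h1
      exact ⟨n0, fun _ _ a s hs hn ha => (h3 a s hs hn ha).2⟩
    · exact ⟨0, fun h1 h2 => absurd ⟨h1, h2⟩ hP⟩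
  choose f hf using hg
  refine ⟨(fin_set U D h).toFinset.sup f, fun P hP hPU hPD hPh a s hs hn ha => ?_⟩
  refine hf P hP hPD a s hs (le_trans ?_ hn) ha
  exact Finset.le_sup (f := f) ((fin_set U D h).mem_toFinset.2 ⟨hPU, hPD, hPh⟩)

end Pool.Agent.U623.HA
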