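import Pool.Agent.U623.HF.Exp
import Pool.Agent.U623.HF.Indep

/-! # The ring of functions generated by the tails of multiple zeta values -/

set_option autoImplicit false

open Filter Topology Polynomial Asymptotics

namespace Pool.Agent.U623.HA

open Pool.Agent.U623.HF Pool.Agent.H447R2.MZ

/-- combinations of tails with polynomial coefficients (on the positive integers) -/
def PT (f : ℕ → ℝ) : Prop := ∃ F : List ℕ →₀ ℝ[X], (∀ w ∈ F.support, RA w) ∧
  ∀ m : ℕ, 1 ≤ m → f m = F.sum fun w p => p.eval (m : ℝ) * T w m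

lemma PT.congr {f g : ℕ → ℝ} (h : PT f) (hfg : ∀ m, 1 ≤ m → g m = f m) : PT g := by
  obtain ⟨F, h1, h2⟩ := h
  exact ⟨F, h1, fun m hm => by rw [hfg m hm, h2 m hm]⟩

lemma PT.zero : PT (fun _ => 0) := ⟨0, by simp, fun m _ => by simp⟩

lemma PT.add {f g : ℕ → ℝ} (hf : PT f) (hg : PT g) : PT (fun m => f m + g m) := by
  classical
  obtain ⟨F, hF, h1⟩ := hf
  obtain ⟨G, hG, h2⟩ := hg
  refine ⟨F + G, fun w hw => ?_, fun m hm => ?_⟩
  · rcases Finset.mem_union.1 (Finsupp.support_add hw) with h | h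
    · exact hF w h
    · exact hG w h
  · beta_reduce
    rw [h1 m hm, h2 m hm, Finsupp.sum_add_index']
    · intro w; simp
    · intro w p q; rw [eval_add, add_mul]

lemma PT.polymul {f : ℕ → ℝ} (hf : PT f) (p : ℝ[X]) : PT (fun m => p.eval (m : ℝ) * f m) := by
  obtain ⟨F, hF, h1⟩ := hf
  refine ⟨p • F, fun w hw => hF w (Finsupp.support_smul hw), fun m hm => ?_⟩
  beta_reduce
  rw [h1 m hm, Finsupp.sum_smul_index' (by intro w; simp), Finsupp.mul_sum]
  refine Finsupp.sum_congr fun w _ => ?_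
  rw [smul_eq_mul, eval_mul, mul_assoc]

lemma PT.const {f : ℕ → ℝ} (hf : PT f) (c : ℝ) : PT (fun m => c * f m) := by
  have := hf.polymul (C c)
  simpa using this

lemma PT.sum {ι : Type*} (s : Finset ι) (f : ι → ℕ → ℝ) (h : ∀ i ∈ s, PT (f i)) :
    PT (fun m => ∑ i ∈ s, f i m) := by
  classical
  induction s using Finset.induction_on with
  | empty => simpa using PT.zero
  | insert i s hi ih =>
    have := (h i (Finset.mem_insert_self _ _)).add (ih fun j hj => h j (Finset.mem_insert_of_mem hj))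
    refine this.congr fun m _ => ?_
    rw [Finset.sum_insert hi]

lemma PT_T {w : List ℕ} (hw : RA w) : PT (T w) := by
  classical
  refine ⟨Finsupp.single w 1, fun v hv => ?_, fun m _ => ?_⟩
  · have := Finsupp.support_single_subset hv
    rw [Finset.mem_singleton] at this
    rwa [this]
  · rw [Finsupp.sum_single_index (by simp)]
    simp

lemma PT_one : PT (fun _ => 1) := by
  have h : RA [] := ⟨by simp, by simp⟩
  exact (PT_T h).congr fun m _ => (T_nil m).symm

/-! ### The product of two tails -/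

lemma ra_cons {a : ℕ} {w : List ℕ} (ha : 1 ≤ a) (h : RA w) (h2 : w = [] → 2 ≤ a) : RA (a :: w) := by
  unfold RA at *
  rw [List.reverse_cons]
  refine ⟨fun x hx => ?_, fun b t hb => ?_⟩
  · rw [List.mem_append, List.mem_singleton] at hx
    rcases hx with hx | rfl
    · exact h.1 x hx
    · exact ha
  · cases hr : w.reverse with
    | nil =>
      rw [hr, List.nil_append, List.cons.injEq] at hb
      rw [← hb.1]
      exact h2 (by simpa using hr)
    | cons c v =>
      rw [hr, List.cons_append, List.cons.injEq] at hb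
      rw [← hb.1]
      exact h.2 c v hr

lemma T_lim {w : List ℕ} (h : RA w) (hw : w ≠ []) : Tendsto (T w) atTop (𝓝 0) := by
  obtain ⟨C, hC, hb⟩ := (Tb w h).2.2.1 hw
  have h1 : Tendsto (fun m : ℕ => C * ((m : ℝ) + 1)⁻¹) atTop (𝓝 0) := by
    have h2 : Tendsto (fun m : ℕ => ((m : ℝ) + 1)⁻¹) atTop (𝓝 0) := by
      have := tendsto_one_div_add_atTop_nhds_zero_nat (𝕜 := ℝ)
      simpa [one_div] using this
    simpa using h2.const_mul C
  exact squeeze_zero (T_nonneg h) hb h1

lemma sum_lim (l : List (List ℕ)) (h : ∀ w ∈ l, RA w ∧ w ≠ []) :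
    Tendsto (fun m => (l.map fun w => T w m).sum) atTop (𝓝 0) := by
  induction l with
  | nil => simp
  | cons w l ih =>
    simp only [List.map_cons, List.sum_cons]
    have h1 := T_lim (h w (by simp)).1 (h w (by simp)).2
    have h2 := ih fun v hv => h v (by simp [hv])
    simpa using h1.add h2

lemma cons_sum (a : ℕ) (l : List (List ℕ)) (h : ∀ w ∈ l, RA (a :: w)) (m : ℕ) :
    ((l.map (a :: ·)).map fun w => T w m).sum = (((m + 1 : ℕ) : ℝ) ^ a)⁻¹ * (l.map fun w => T w (m + 1)).sum +
      ((l.map (a :: ·)).map fun w => T w (m + 1)).sum := by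
  induction l with
  | nil => simp
  | cons w l ih =>
    simp only [List.map_cons, List.sum_cons]
    rw [ih fun v hv => h v (by simp [hv]), T_succ (h w (by simp)) m]
    ring

theorem stuffle (n : ℕ) : ∀ u v : List ℕ, u.length + v.length ≤ n → RA u → RA v →
    ∃ l : List (List ℕ), (∀ w ∈ l, RA w ∧ (w = [] → u = [] ∧ v = [])) ∧
      ∀ m, T u m * T v m = (l.map fun w => T w m).sum := by
  induction n with
  | zero =>
    intro u v hl hu hv
    have h1 : u = [] := List.length_eq_zero_iff.1 (by omega)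
    have h2 : v = [] := List.length_eq_zero_iff.1 (by omega)
    subst h1 h2
    exact ⟨[[]], fun w hw => by
      rw [List.mem_singleton] at hw
      subst hw
      exact ⟨hu, fun _ => ⟨rfl, rfl⟩⟩, fun m => by simp [T_nil]⟩
  | succ n ih =>
    intro u v hl hu hv
    cases u with
    | nil =>
      refine ⟨[v], fun w hw => ?_, fun m => by simp [T_nil]⟩
      rw [List.mem_singleton] at hw
      subst hw
      exact ⟨hv, fun h => ⟨rfl, h⟩⟩
    | cons a u =>
    cases v with
    | nil =>
      refine ⟨[a :: u], fun w hw => ?_, fun m => by simp [T_nil]⟩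
      rw [List.mem_singleton] at hw
      subst hw
      exact ⟨hu, fun h => ⟨h, rfl⟩⟩
    | cons b v =>
    simp only [List.length_cons] at hl
    have ha := ra_one hu
    have hb := ra_one hv
    obtain ⟨l1, h1, e1⟩ := ih u (b :: v) (by simp only [List.length_cons]; omega) (ra_tail hu) hv
    obtain ⟨l2, h2, e2⟩ := ih (a :: u) v (by simp only [List.length_cons]; omega) hu (ra_tail hv)
    obtain ⟨l3, h3, e3⟩ := ih u v (by omega) (ra_tail hu) (ra_tail hv)
    have r1 : ∀ w ∈ l1, RA (a :: w) := fun w hw =>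
      ra_cons ha (h1 w hw).1 fun h => absurd ((h1 w hw).2 h).2 (by simp)
    have r2 : ∀ w ∈ l2, RA (b :: w) := fun w hw =>
      ra_cons hb (h2 w hw).1 fun h => absurd ((h2 w hw).2 h).1 (by simp)
    have r3 : ∀ w ∈ l3, RA ((a + b) :: w) := fun w hw =>
      ra_cons (by omega) (h3 w hw).1 fun _ => by omega
    refine ⟨l1.map (a :: ·) ++ (l2.map (b :: ·) ++ l3.map ((a + b) :: ·)), fun w hw => ?_, ?_⟩
    · rw [List.mem_append, List.mem_append, List.mem_map, List.mem_map, List.mem_map] at hw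
      rcases hw with ⟨w, hw, rfl⟩ | ⟨w, hw, rfl⟩ | ⟨w, hw, rfl⟩
      · exact ⟨r1 w hw, fun h => absurd h (by simp)⟩
      · exact ⟨r2 w hw, fun h => absurd h (by simp)⟩
      · exact ⟨r3 w hw, fun h => absurd h (by simp)⟩
    · obtain ⟨D, hD⟩ : ∃ D : ℕ → ℝ, D = fun m => T (a :: u) m * T (b :: v) m -
          ((l1.map (a :: ·) ++ (l2.map (b :: ·) ++ l3.map ((a + b) :: ·))).map fun w => T w m).sum := ⟨_, rfl⟩
      have hstep : ∀ m, D m = D (m + 1) := by
        intro m
        simp only [hD, List.map_append, List.sum_append]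
        rw [cons_sum a l1 r1, cons_sum b l2 r2, cons_sum (a + b) l3 r3, ← e1, ← e2, ← e3,
          T_succ hu m, T_succ hv m, pow_add, mul_inv]
        ring
      have hconst : ∀ m k, D m = D (m + k) := by
        intro m k
        induction k with
        | zero => rfl
        | succ k ih => rw [ih, hstep (m + k)]; rfl
      have hlim : Tendsto D atTop (𝓝 0) := by
        have g1 := (T_lim hu (by simp)).mul (T_lim hv (by simp))
        have g2 := sum_lim (l1.map (a :: ·) ++ (l2.map (b :: ·) ++ l3.map ((a + b) :: ·))) (by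
          intro w hw
          rw [List.mem_append, List.mem_append, List.mem_map, List.mem_map, List.mem_map] at hw
          rcases hw with ⟨w, hw, rfl⟩ | ⟨w, hw, rfl⟩ | ⟨w, hw, rfl⟩
          · exact ⟨r1 w hw, by simp⟩
          · exact ⟨r2 w hw, by simp⟩
          · exact ⟨r3 w hw, by simp⟩)
        have g3 := g1.sub g2
        rw [hD]
        simpa using g3
      intro m
      have h4 : Tendsto (fun k => D (m + k)) atTop (𝓝 0) := by
        have : Tendsto (fun k : ℕ => m + k) atTop atTop :=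
          tendsto_atTop_mono (fun k => Nat.le_add_left k m) tendsto_id
        exact hlim.comp this
      have h5 : D m = 0 := by
        have h6 : (fun k => D (m + k)) = fun _ => D m := by
          funext k
          exact (hconst m k).symm
        rw [h6] at h4
        exact tendsto_nhds_unique tendsto_const_nhds h4
      rw [hD] at h5
      exact sub_eq_zero.1 h5

lemma PT_list (l : List (List ℕ)) (h : ∀ w ∈ l, RA w) : PT (fun m => (l.map fun w => T w m).sum) := by
  induction l with
  | nil => simpa using PT.zero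
  | cons w l ih =>
    simp only [List.map_cons, List.sum_cons]
    exact (PT_T (h w (by simp))).add (ih fun v hv => h v (by simp [hv]))

lemma PT_TT {u v : List ℕ} (hu : RA u) (hv : RA v) : PT (fun m => T u m * T v m) := by
  obtain ⟨l, h1, h2⟩ := stuffle _ u v le_rfl hu hv
  exact (PT_list l fun w hw => (h1 w hw).1).congr fun m _ => h2 m

lemma PT.mul {f g : ℕ → ℝ} (hf : PT f) (hg : PT g) : PT (fun m => f m * g m) := by
  obtain ⟨F, hF, h1⟩ := hf
  obtain ⟨G, hG, h2⟩ := hg
  have h3 : PT (fun m => ∑ u ∈ F.support, ∑ v ∈ G.support,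
      (F u * G v).eval (m : ℝ) * (T u m * T v m)) :=
    PT.sum _ _ fun u hu => PT.sum _ _ fun v hv => (PT_TT (hF u hu) (hG v hv)).polymul _
  refine h3.congr fun m hm => ?_
  rw [h1 m hm, h2 m hm, Finsupp.sum, Finsupp.sum, Finset.sum_mul_sum]
  refine Finset.sum_congr rfl fun u _ => Finset.sum_congr rfl fun v _ => ?_
  rw [eval_mul]
  ring

/-! ### Quotients -/

/-- quotients of `PT`-functions by polynomials which do not vanish at the positive integers -/
def Cl (f : ℕ → ℝ) : Prop := ∃ Q : ℝ[X], (∀ m : ℕ, 1 ≤ m → Q.eval (m : ℝ) ≠ 0) ∧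
  PT (fun m => Q.eval (m : ℝ) * f m)

lemma Cl.of {f : ℕ → ℝ} (h : PT f) : Cl f := ⟨1, by simp, by simpa using h⟩

lemma Cl.congr {f g : ℕ → ℝ} (h : Cl f) (hfg : ∀ m, 1 ≤ m → g m = f m) : Cl g := by
  obtain ⟨Q, h1, h2⟩ := h
  exact ⟨Q, h1, h2.congr fun m hm => by rw [hfg m hm]⟩

lemma Cl.add {f g : ℕ → ℝ} (hf : Cl f) (hg : Cl g) : Cl (fun m => f m + g m) := by
  obtain ⟨Q, h1, h2⟩ := hf
  obtain ⟨R, h3, h4⟩ := hg
  refine ⟨Q * R, fun m hm => ?_, ((h2.polymul R).add (h4.polymul Q)).congr fun m _ => ?_⟩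
  · rw [eval_mul]
    exact mul_ne_zero (h1 m hm) (h3 m hm)
  · rw [eval_mul]
    ring

lemma Cl.mul {f g : ℕ → ℝ} (hf : Cl f) (hg : Cl g) : Cl (fun m => f m * g m) := by
  obtain ⟨Q, h1, h2⟩ := hf
  obtain ⟨R, h3, h4⟩ := hg
  refine ⟨Q * R, fun m hm => ?_, (h2.mul h4).congr fun m _ => ?_⟩
  · rw [eval_mul]
    exact mul_ne_zero (h1 m hm) (h3 m hm)
  · rw [eval_mul]
    ring

lemma Cl.cst (c : ℝ) : Cl (fun _ => c) := Cl.of ((PT_one.const c).congr fun m _ => by rw [mul_one])

lemma Cl.sum {ι : Type*} (s : Finset ι) (f : ι → ℕ → ℝ) (h : ∀ i ∈ s, Cl (f i)) :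
    Cl (fun m => ∑ i ∈ s, f i m) := by
  classical
  induction s using Finset.induction_on with
  | empty => simpa using Cl.cst 0
  | insert i s hi ih =>
    have := (h i (Finset.mem_insert_self _ _)).add (ih fun j hj => h j (Finset.mem_insert_of_mem hj))
    refine this.congr fun m _ => ?_
    rw [Finset.sum_insert hi]

lemma Cl.div {f g : ℕ → ℝ} (p : ℝ[X]) (hp : ∀ m : ℕ, 1 ≤ m → p.eval (m : ℝ) ≠ 0) (hg : Cl g)
    (h : ∀ m : ℕ, 1 ≤ m → p.eval (m : ℝ) * f m = g m) : Cl f := by
  obtain ⟨Q, h1, h2⟩ := hg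
  refine ⟨Q * p, fun m hm => ?_, h2.congr fun m hm => ?_⟩
  · rw [eval_mul]
    exact mul_ne_zero (h1 m hm) (hp m hm)
  · rw [eval_mul, mul_assoc, h m hm]

lemma Cl_T_shift (w : List ℕ) : RA w → Cl (fun m => T w (m + 1)) := by
  induction w with
  | nil => intro _; exact (Cl.cst 1).congr fun m _ => T_nil _
  | cons a w ih =>
    intro h
    have h1 := ih (ra_tail h)
    have h2 : Cl (fun m => (((m + 1 : ℕ) : ℝ) ^ a)⁻¹ * T w (m + 1)) := by
      refine Cl.div ((X + C 1) ^ a) (fun m _ => ?_) h1 fun m _ => ?_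
      · rw [eval_pow, eval_add, eval_X, eval_C]
        positivity
      · rw [eval_pow, eval_add, eval_X, eval_C]
        push_cast
        rw [← mul_assoc, mul_inv_cancel₀ (by positivity), one_mul]
    have h3 : Cl (T (a :: w)) := Cl.of (PT_T h)
    have h4 := h3.add ((Cl.cst (-1)).mul h2)
    refine h4.congr fun m _ => ?_
    rw [T_succ h m]
    ring

lemma PT.shift {f : ℕ → ℝ} (h : PT f) : Cl (fun m => f (m + 1)) := by
  obtain ⟨F, hF, h1⟩ := h
  have h2 : Cl (fun m => ∑ w ∈ F.support, (us (F w)).eval (m : ℝ) * T w (m + 1)) :=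
    Cl.sum _ _ fun w hw => by
      have e := (Cl.of ((PT_one.polymul (us (F w))).congr (g := fun m => (us (F w)).eval (m : ℝ))
        fun m _ => by rw [mul_one]))
      exact e.mul (Cl_T_shift w (hF w hw))
  refine h2.congr fun m hm => ?_
  rw [h1 (m + 1) (by omega), Finsupp.sum]
  refine Finset.sum_congr rfl fun w _ => ?_
  rw [us_eval]
  push_cast
  rfl

lemma Cl.shift {f : ℕ → ℝ} (h : Cl f) : Cl (fun m => f (m + 1)) := by
  obtain ⟨Q, h1, h2⟩ := h
  refine Cl.div (us Q) (fun m _ => ?_) h2.shift fun m _ => ?_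
  · rw [us_eval]
    have := h1 (m + 1) (by omega)
    push_cast at this
    exact this
  · rw [us_eval]
    push_cast
    rfl

lemma Cl.shifts {f : ℕ → ℝ} (h : Cl f) (j : ℕ) : Cl (fun m => f (m + j)) := by
  induction j with
  | zero => exact h
  | succ j ih =>
    refine ih.shift.congr fun m _ => ?_
    congr 1
    omega

end Pool.Agent.U623.HA
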