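import Pool.Agent.U623.HA.Cl

/-! # Functions in the ring of the tails are zero or not small -/

set_option autoImplicit false

open Filter Topology Polynomial Asymptotics

namespace Pool.Agent.U623.HA

open Pool.Agent.U623.HF

noncomputable def rv (N : ℕ) (P : ℝ[X]) : ℝ[X] := ∑ i ∈ Finset.range (N + 1), C (P.coeff i) * X ^ (N - i)

lemma rv_eval {N : ℕ} {P : ℝ[X]} (h : P.natDegree ≤ N) {x : ℝ} (hx : x ≠ 0) :
    P.eval x = x ^ N * (rv N P).eval x⁻¹ := by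
  unfold rv
  rw [eval_finsetSum, eval_eq_sum_range' (Nat.lt_succ_of_le h), Finset.mul_sum]
  refine Finset.sum_congr rfl fun i hi => ?_
  have hi' : i ≤ N := Nat.lt_succ_iff.1 (Finset.mem_range.1 hi)
  rw [eval_mul, eval_C, eval_pow, eval_X]
  obtain ⟨k, rfl⟩ := Nat.exists_eq_add_of_le hi'
  rw [Nat.add_sub_cancel_left, pow_add, inv_pow]
  field_simp

/-- two-sided bounds by powers -/
def Two (f : ℕ → ℝ) : Prop := ∃ K n0 : ℕ, ∀ m : ℕ, n0 ≤ m → ((m : ℝ) ^ K)⁻¹ ≤ |f m| ∧ |f m| ≤ (m : ℝ) ^ K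

lemma two_of_tendsto {f φ : ℕ → ℝ} {N j : ℕ} {c : ℝ} (hc : c ≠ 0)
    (h : ∀ᶠ m : ℕ in atTop, f m = (m : ℝ) ^ N * ((m : ℝ) ^ j)⁻¹ * φ m) (hφ : Tendsto φ atTop (𝓝 c)) :
    Two f := by
  have hc0 : 0 < |c| := abs_pos.2 hc
  have h1 : ∀ᶠ m in atTop, |c| / 2 < |φ m| := hφ.abs.eventually_const_lt (by linarith)
  have h2 : ∀ᶠ m in atTop, |φ m| < 2 * |c| := hφ.abs.eventually_lt_const (by linarith)
  have h3 : ∀ᶠ m : ℕ in atTop, max (2 / |c|) (2 * |c|) ≤ (m : ℝ) :=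
    tendsto_natCast_atTop_atTop.eventually_ge_atTop _
  obtain ⟨n0, hn⟩ := eventually_atTop.1 (h.and (h1.and (h2.and (h3.and (eventually_ge_atTop 1)))))
  refine ⟨N + j + 1, n0, fun m hm => ?_⟩
  obtain ⟨e, a1, a2, a3, a4⟩ := hn m hm
  have m1 : (1 : ℝ) ≤ m := by exact_mod_cast a4
  have m0 : (0 : ℝ) < m := by linarith
  have b1 : 2 / |c| ≤ m := (le_max_left _ _).trans a3
  have b2 : 2 * |c| ≤ m := (le_max_right _ _).trans a3
  have b1' : (m : ℝ)⁻¹ ≤ |c| / 2 := by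
    rw [inv_le_comm₀ m0 (by positivity), inv_div]
    exact b1
  have pN : (1 : ℝ) ≤ (m : ℝ) ^ N := one_le_pow₀ m1
  have pj : (1 : ℝ) ≤ (m : ℝ) ^ j := one_le_pow₀ m1
  rw [e, abs_mul, abs_mul, abs_of_pos (pow_pos m0 N), abs_of_pos (inv_pos.2 (pow_pos m0 j))]
  constructor
  · calc ((m : ℝ) ^ (N + j + 1))⁻¹ = ((m : ℝ) ^ N)⁻¹ * ((m : ℝ) ^ j)⁻¹ * (m : ℝ)⁻¹ := by
          rw [pow_succ, pow_add, mul_inv, mul_inv]
      _ ≤ (m : ℝ) ^ N * ((m : ℝ) ^ j)⁻¹ * |φ m| := by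
          have : ((m : ℝ) ^ N)⁻¹ ≤ (m : ℝ) ^ N := (inv_le_one_of_one_le₀ pN).trans pN
          gcongr
          linarith
  · calc (m : ℝ) ^ N * ((m : ℝ) ^ j)⁻¹ * |φ m| ≤ (m : ℝ) ^ N * 1 * m := by
          have : ((m : ℝ) ^ j)⁻¹ ≤ 1 := inv_le_one_of_one_le₀ pj
          gcongr
          linarith
      _ = (m : ℝ) ^ (N + 1) := by rw [pow_succ, mul_one]
      _ ≤ (m : ℝ) ^ (N + j + 1) := pow_le_pow_right₀ m1 (by omega)

lemma evalinv_tendsto (r : ℝ[X]) : Tendsto (fun m : ℕ => r.eval ((m : ℝ)⁻¹)) atTop (𝓝 (r.eval 0)) :=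
  (r.continuous.tendsto 0).comp tendsto_inv_atTop_nhds_zero_nat

lemma PT_dich {f : ℕ → ℝ} (h : PT f) : (∀ m, 1 ≤ m → f m = 0) ∨ Two f := by
  classical
  obtain ⟨F, hF, h1⟩ := h
  by_cases hF0 : F = 0
  · left
    intro m hm
    rw [h1 m hm, hF0]
    simp
  right
  obtain ⟨w0, hw0⟩ : ∃ w0, w0 ∈ F.support := by
    by_contra hcon
    push Not at hcon
    exact hF0 (Finsupp.support_eq_empty.1 (Finset.eq_empty_of_forall_notMem hcon))
  have hneg : ¬ Negl f := by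
    intro hN
    have h2 : Negl (rel F.support F) := negl_congr hN (by
      filter_upwards [eventually_ge_atTop 1] with m hm
      rw [h1 m hm]
      rfl)
    have h3 := indep_aux (F.support.sup List.length) F.support.card F.support F
      (fun v hv => Finsupp.notMem_support_iff.1 hv) hF
      (fun w hw => Finset.le_sup (f := List.length) (Finsupp.mem_support_iff.2 hw))
      (fun S hS => Finset.card_le_card fun v hv => (hS v hv).1) h2 w0
    exact Finsupp.mem_support_iff.1 hw0 h3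
  unfold Negl at hneg
  push Not at hneg
  obtain ⟨J, hJ⟩ := hneg
  obtain ⟨N, hN⟩ : ∃ N : ℕ, ∀ w ∈ F.support, (F w).natDegree ≤ N :=
    ⟨F.support.sup fun w => (F w).natDegree, fun w hw =>
      Finset.le_sup (f := fun w => (F w).natDegree) hw⟩
  have hex : ∀ w ∈ F.support, ∃ p : ℚ[X], (fun m : ℕ => T w m - aeval ((m : ℝ)⁻¹) p) =O[atTop]
      (fun m : ℕ => ((m : ℝ) ^ (N + J))⁻¹) := fun w hw => by
    obtain ⟨p, -, h⟩ := (T_Ex w (hF w hw)).1 (N + J)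
    exact ⟨p, h⟩
  choose! p hp using hex
  obtain ⟨g, hg⟩ : ∃ g : ℝ[X], g = ∑ w ∈ F.support, rv N (F w) * (p w).map (algebraMap ℚ ℝ) := ⟨_, rfl⟩
  obtain ⟨e, he⟩ : ∃ e : ℕ → ℝ, e = fun m : ℕ => ∑ w ∈ F.support,
      (rv N (F w)).eval ((m : ℝ)⁻¹) * (T w m - aeval ((m : ℝ)⁻¹) (p w)) := ⟨_, rfl⟩
  have hf : ∀ m : ℕ, 1 ≤ m → f m = (m : ℝ) ^ N * (g.eval ((m : ℝ)⁻¹) + e m) := by
    intro m hm
    have m0 : (m : ℝ) ≠ 0 := by exact_mod_cast (by omega : m ≠ 0)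
    rw [h1 m hm, hg, he, eval_finsetSum, ← Finset.sum_add_distrib, Finset.mul_sum, Finsupp.sum]
    refine Finset.sum_congr rfl fun w hw => ?_
    rw [rv_eval (hN w hw) m0, eval_mul, eval_map_algebraMap]
    ring
  have heO : e =O[atTop] (fun m : ℕ => ((m : ℝ) ^ (N + J))⁻¹) := by
    have h2 : (∑ w ∈ F.support, fun m : ℕ =>
        (rv N (F w)).eval ((m : ℝ)⁻¹) * (T w m - aeval ((m : ℝ)⁻¹) (p w))) =O[atTop]
        (fun m : ℕ => ((m : ℝ) ^ (N + J))⁻¹) := by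
      refine IsBigO.sum fun w hw => ?_
      have h3 := ((evalinv_tendsto (rv N (F w))).isBigO_one ℝ).mul (hp w hw)
      simpa using h3
    refine h2.congr_left fun m => ?_
    rw [Finset.sum_apply, he]
  have hex : ∃ j, j < N + J ∧ g.coeff j ≠ 0 := by
    by_contra hcon
    push Not at hcon
    apply hJ
    obtain ⟨g', hg'⟩ := X_pow_dvd_iff.2 hcon
    have h2 : (fun m : ℕ => (m : ℝ) ^ N * (g.eval ((m : ℝ)⁻¹) + e m)) =O[atTop]
        (fun m : ℕ => (m : ℝ) ^ N * ((m : ℝ) ^ (N + J))⁻¹) := by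
      refine (isBigO_refl _ _).mul (IsBigO.add ?_ heO)
      have h3 := (isBigO_refl (fun m : ℕ => ((m : ℝ) ^ (N + J))⁻¹) atTop).mul
        ((evalinv_tendsto g').isBigO_one ℝ)
      simp only [mul_one] at h3
      refine h3.congr_left fun m => ?_
      rw [hg', eval_mul, eval_pow, eval_X, inv_pow]
    refine h2.congr' ?_ ?_
    · filter_upwards [eventually_ge_atTop 1] with m hm
      rw [hf m hm]
    · filter_upwards [eventually_ge_atTop 1] with m hm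
      have m0 : (m : ℝ) ≠ 0 := by exact_mod_cast (by omega : m ≠ 0)
      rw [pow_add, mul_inv, ← mul_assoc, mul_inv_cancel₀ (pow_ne_zero _ m0), one_mul]
  obtain ⟨j, ⟨hjJ, hj0⟩, hjmin⟩ : ∃ j, (j < N + J ∧ g.coeff j ≠ 0) ∧ ∀ i < j, g.coeff i = 0 := by
    refine ⟨Nat.find hex, Nat.find_spec hex, fun i hi => ?_⟩
    have h1 := Nat.find_min hex hi
    push Not at h1
    exact h1 (hi.trans (Nat.find_spec hex).1)
  obtain ⟨g', hg'⟩ := X_pow_dvd_iff.2 hjmin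
  have hc : g'.eval 0 ≠ 0 := by
    rw [← coeff_zero_eq_eval_zero]
    intro h
    apply hj0
    rw [hg', mul_comm, coeff_mul_X_pow', if_pos le_rfl, Nat.sub_self]
    exact h
  refine two_of_tendsto (N := N) (j := j) (φ := fun m => g'.eval ((m : ℝ)⁻¹) + (m : ℝ) ^ j * e m) hc ?_ ?_
  · filter_upwards [eventually_ge_atTop 1] with m hm
    have m0 : (m : ℝ) ≠ 0 := by exact_mod_cast (by omega : m ≠ 0)
    rw [hf m hm, hg', eval_mul, eval_pow, eval_X, inv_pow]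
    field_simp
  · have h2 : Tendsto (fun m : ℕ => (m : ℝ) ^ j * e m) atTop (𝓝 0) := by
      have h3 : (fun m : ℕ => (m : ℝ) ^ j * e m) =O[atTop] (fun m : ℕ => (m : ℝ)⁻¹) := by
        have h4 := (isBigO_refl (fun m : ℕ => (m : ℝ) ^ j) atTop).mul heO
        refine h4.trans (IsBigO.of_bound 1 ?_)
        filter_upwards [eventually_ge_atTop 1] with m hm
        have m1 : (1 : ℝ) ≤ m := by exact_mod_cast hm
        have m0 : (0 : ℝ) < m := by linarith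
        rw [one_mul, Real.norm_of_nonneg (by positivity), Real.norm_of_nonneg (by positivity),
          ← div_eq_mul_inv, div_le_iff₀ (by positivity), inv_mul_eq_div, le_div_iff₀ m0, ← pow_succ]
        exact pow_le_pow_right₀ m1 (by omega)
      exact h3.trans_tendsto tendsto_inv_atTop_nhds_zero_nat
    simpa using (evalinv_tendsto g').add h2

theorem Cl_dich {f : ℕ → ℝ} (h : Cl f) : (∀ m, 1 ≤ m → f m = 0) ∨ Two f := by
  obtain ⟨Q, hQ, h1⟩ := h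
  rcases PT_dich h1 with h2 | ⟨K, n0, h2⟩
  · left
    intro m hm
    exact (mul_eq_zero.1 (h2 m hm)).resolve_left (hQ m hm)
  right
  have h3 : PT (fun m : ℕ => Q.eval (m : ℝ)) := (PT_one.polymul Q).congr fun m _ => by rw [mul_one]
  rcases PT_dich h3 with h4 | ⟨K', n1, h4⟩
  · exact absurd (h4 1 le_rfl) (hQ 1 le_rfl)
  refine ⟨K + K', max (max n0 n1) 1, fun m hm => ?_⟩
  have hm1 : 1 ≤ m := (le_max_right _ _).trans hm
  obtain ⟨a1, a2⟩ := h2 m ((le_max_left _ _).trans ((le_max_left _ _).trans hm))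
  obtain ⟨a3, a4⟩ := h4 m ((le_max_right _ _).trans ((le_max_left _ _).trans hm))
  have m1 : (1 : ℝ) ≤ m := by exact_mod_cast hm1
  have m0 : (0 : ℝ) < m := by linarith
  have q0 : 0 < |Q.eval (m : ℝ)| := abs_pos.2 (hQ m hm1)
  rw [abs_mul] at a1 a2
  have pK : (0 : ℝ) < (m : ℝ) ^ K := by positivity
  have pK' : (0 : ℝ) < (m : ℝ) ^ K' := by positivity
  constructor
  · rw [pow_add, mul_inv]
    have h5 : ((m : ℝ) ^ K)⁻¹ ≤ (m : ℝ) ^ K' * |f m| := a1.trans (mul_le_mul_of_nonneg_right a4 (abs_nonneg _))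
    calc ((m : ℝ) ^ K)⁻¹ * ((m : ℝ) ^ K')⁻¹ ≤ ((m : ℝ) ^ K' * |f m|) * ((m : ℝ) ^ K')⁻¹ :=
          mul_le_mul_of_nonneg_right h5 (by positivity)
      _ = |f m| := by field_simp
  · have h5 : ((m : ℝ) ^ K')⁻¹ * |f m| ≤ (m : ℝ) ^ K := (mul_le_mul_of_nonneg_right a3 (abs_nonneg _)).trans a2
    calc |f m| = (m : ℝ) ^ K' * (((m : ℝ) ^ K')⁻¹ * |f m|) := by field_simp
      _ ≤ (m : ℝ) ^ K' * (m : ℝ) ^ K := mul_le_mul_of_nonneg_left h5 pK'.le
      _ = _ := by rw [pow_add]; ring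

end Pool.Agent.U623.HA
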