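import Mathlib

/-! # Lipschitz bounds for polynomials and the arithmetic of the main estimate -/

set_option autoImplicit false

open MvPolynomial

namespace Pool.Agent.U623.HA

variable {σ : Type*}

lemma lip (P : MvPolynomial σ ℝ) (B : σ → ℝ) (hB : ∀ u, 0 ≤ B u) : ∃ C : ℝ, 0 ≤ C ∧
    (∀ x : σ → ℝ, (∀ u, |x u| ≤ B u) → |eval x P| ≤ C) ∧
    ∀ (x y : σ → ℝ) (δ : ℝ), (∀ u, |x u| ≤ B u) → (∀ u, |y u| ≤ B u) → 0 ≤ δ →
      (∀ u, |x u - y u| ≤ B u * δ) → |eval x P - eval y P| ≤ C * δ := by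
  induction P using MvPolynomial.induction_on with
  | C a =>
    refine ⟨|a|, abs_nonneg a, fun x _ => by rw [eval_C], fun x y δ _ _ hδ _ => ?_⟩
    rw [eval_C, eval_C, sub_self, abs_zero]
    positivity
  | add p q hp hq =>
    obtain ⟨C1, h0, h1, h2⟩ := hp
    obtain ⟨C2, k0, k1, k2⟩ := hq
    refine ⟨C1 + C2, by positivity, fun x hx => ?_, fun x y δ hx hy hδ hxy => ?_⟩
    · rw [map_add]
      exact (abs_add_le _ _).trans (add_le_add (h1 x hx) (k1 x hx))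
    · rw [map_add, map_add, add_sub_add_comm, add_mul]
      exact (abs_add_le _ _).trans (add_le_add (h2 x y δ hx hy hδ hxy) (k2 x y δ hx hy hδ hxy))
  | mul_X p u hp =>
    obtain ⟨C1, h0, h1, h2⟩ := hp
    have hb := hB u
    refine ⟨C1 * B u + C1 * B u, by positivity, fun x hx => ?_, fun x y δ hx hy hδ hxy => ?_⟩
    · rw [map_mul, eval_X, abs_mul]
      have := mul_le_mul (h1 x hx) (hx u) (abs_nonneg _) h0
      nlinarith [mul_nonneg h0 hb]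
    · rw [map_mul, map_mul, eval_X, eval_X]
      have e : eval x p * x u - eval y p * y u = (eval x p - eval y p) * x u + eval y p * (x u - y u) := by ring
      rw [e]
      refine (abs_add_le _ _).trans ?_
      rw [abs_mul, abs_mul, add_mul]
      refine add_le_add ?_ ?_
      · calc _ ≤ (C1 * δ) * B u := mul_le_mul (h2 x y δ hx hy hδ hxy) (hx u) (abs_nonneg _) (by positivity)
          _ = _ := by ring
      · calc _ ≤ C1 * (B u * δ) := mul_le_mul (h1 y hy) (hxy u) (abs_nonneg _) h0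
          _ = _ := by ring

lemma scale {P : MvPolynomial σ ℝ} {d : ℕ} (h : P.IsHomogeneous d) (Z : ℝ) (x : σ → ℝ) :
    eval (fun u => Z * x u) P = Z ^ d * eval x P := by
  rw [eval_eq, eval_eq, Finset.mul_sum]
  refine Finset.sum_congr rfl fun α hα => ?_
  have h1 := h (mem_support_iff.1 hα)
  rw [Finsupp.weight_apply, Finsupp.sum] at h1
  simp only [mul_pow]
  rw [Finset.prod_mul_distrib, Finset.prod_pow_eq_pow_sum, ← h1]
  simp only [Pi.one_apply, smul_eq_mul, mul_one]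
  ring

lemma bern (L J0 : ℝ) (hL : 0 ≤ L) (hJ0 : 0 ≤ J0) (h : J0 ≤ L) (d : ℕ) :
    (L + J0) ^ d * L ≤ L ^ d * (L + (2 ^ d - 1) * J0) := by
  induction d with
  | zero => simp
  | succ d ih =>
    have p2 : (1 : ℝ) ≤ 2 ^ d := one_le_pow₀ (by norm_num)
    calc (L + J0) ^ (d + 1) * L = ((L + J0) ^ d * L) * (L + J0) := by ring
      _ ≤ (L ^ d * (L + (2 ^ d - 1) * J0)) * (L + J0) := mul_le_mul_of_nonneg_right ih (by positivity)
      _ = L ^ d * ((L + (2 ^ d - 1) * J0) * (L + J0)) := by ring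
      _ ≤ L ^ d * (L * (L + (2 ^ (d + 1) - 1) * J0)) := by
          refine mul_le_mul_of_nonneg_left ?_ (by positivity)
          have : (2 ^ d - 1) * J0 * J0 ≤ (2 ^ d - 1) * J0 * L :=
            mul_le_mul_of_nonneg_left h (mul_nonneg (by linarith) hJ0)
          rw [pow_succ]
          nlinarith
      _ = _ := by ring

lemma base_ineq {L J J0 d D : ℕ} (hL : 1 ≤ L) (hJ0L : J0 ≤ L) (hJ : J = 2 ^ d * J0) (hD : 1 ≤ D) :
    ((L : ℝ) + J0) ^ d * L * (1 + (((L : ℝ) + J) ^ D)⁻¹) ≤ (L : ℝ) ^ d * (L + J + 1) := by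
  have L1 : (1 : ℝ) ≤ L := by exact_mod_cast hL
  have J0' : (0 : ℝ) ≤ J := J.cast_nonneg
  have J00 : (0 : ℝ) ≤ J0 := J0.cast_nonneg
  have hJr : (J : ℝ) = 2 ^ d * J0 := by rw [hJ]; push_cast; rfl
  have h1 := bern L J0 (by linarith) J00 (by exact_mod_cast hJ0L) d
  have h2 : (L : ℝ) ^ d * (L + (2 ^ d - 1) * J0) ≤ (L : ℝ) ^ d * (L + J) := by
    refine mul_le_mul_of_nonneg_left ?_ (by positivity)
    rw [hJr]
    linarith
  have h3 : ((L : ℝ) + J) * (1 + (((L : ℝ) + J) ^ D)⁻¹) ≤ L + J + 1 := by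
    rw [mul_add, mul_one]
    have : ((L : ℝ) + J) * (((L : ℝ) + J) ^ D)⁻¹ ≤ 1 := by
      rw [← div_eq_mul_inv, div_le_one (by positivity)]
      exact le_self_pow₀ (by linarith) (by omega)
    linarith
  calc _ ≤ ((L : ℝ) ^ d * (L + J)) * (1 + (((L : ℝ) + J) ^ D)⁻¹) :=
        mul_le_mul_of_nonneg_right (h1.trans h2) (by positivity)
    _ = (L : ℝ) ^ d * (((L : ℝ) + J) * (1 + (((L : ℝ) + J) ^ D)⁻¹)) := by ring
    _ ≤ _ := mul_le_mul_of_nonneg_left h3 (by positivity)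

lemma ar1 {c h A1 A2 Λ M0 Rr ρ Kk C1 : ℝ} {d : ℕ} (h0 : 0 < h)
    (Λ0 : 0 < Λ) (M00 : 0 < M0) (Rr0 : 0 < Rr) (Kk0 : 0 < Kk)
    (hb : M0 ^ d * Λ * ρ ≤ Λ ^ d * Rr) (hk : 4 * C1 * c ^ (d + 1) * A1 ^ d * A2 * Kk ≤ ρ) :
    (c * h * (A1 * Λ⁻¹)) ^ d * (C1 * (c * h * (A2 * Rr⁻¹))) * (Λ * h⁻¹) ≤ 1 / 4 * (Kk⁻¹ * (M0⁻¹ * h) ^ d) := by
  have e1 : (c * h * (A1 * Λ⁻¹)) ^ d * (C1 * (c * h * (A2 * Rr⁻¹))) * (Λ * h⁻¹) =
      (C1 * c ^ (d + 1) * A1 ^ d * A2 * h ^ d * Λ) / (Λ ^ d * Rr) := by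
    rw [mul_pow, mul_pow, mul_pow, inv_pow, pow_succ]
    field_simp
  have e2 : 1 / 4 * (Kk⁻¹ * (M0⁻¹ * h) ^ d) = h ^ d / (4 * Kk * M0 ^ d) := by
    rw [mul_pow, inv_pow]
    field_simp
  rw [e1, e2, div_le_div_iff₀ (by positivity) (by positivity)]
  calc C1 * c ^ (d + 1) * A1 ^ d * A2 * h ^ d * Λ * (4 * Kk * M0 ^ d)
      = h ^ d * ((4 * C1 * c ^ (d + 1) * A1 ^ d * A2 * Kk) * (M0 ^ d * Λ)) := by ring
    _ ≤ h ^ d * (ρ * (M0 ^ d * Λ)) := by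
        refine mul_le_mul_of_nonneg_left (mul_le_mul_of_nonneg_right hk (by positivity)) (by positivity)
    _ = h ^ d * (M0 ^ d * Λ * ρ) := by ring
    _ ≤ _ := mul_le_mul_of_nonneg_left hb (by positivity)

lemma ar2 {c h A1 Λ M0 ρ Kk E : ℝ} {d : ℕ} (h0 : 0 < h) (h1 : h ≤ 1) (hE : 0 ≤ E) (c0 : 0 ≤ c) (A10 : 0 ≤ A1)
    (Λ0 : 0 < Λ) (M00 : 0 < M0) (Kk0 : 0 < Kk)
    (hb : M0 ^ d * ρ ≤ Λ ^ (d + 1)) (hk : 4 * E * c ^ (d + 1) * A1 ^ (d + 1) * Kk ≤ ρ) :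
    E * (c * h * (A1 * Λ⁻¹)) ^ (d + 1) ≤ 1 / 4 * (Kk⁻¹ * (M0⁻¹ * h) ^ d) := by
  have e1 : E * (c * h * (A1 * Λ⁻¹)) ^ (d + 1) =
      (E * c ^ (d + 1) * A1 ^ (d + 1) * h ^ (d + 1)) / (Λ ^ (d + 1)) := by
    rw [mul_pow, mul_pow, mul_pow, inv_pow]
    field_simp
  have e2 : 1 / 4 * (Kk⁻¹ * (M0⁻¹ * h) ^ d) = h ^ d / (4 * Kk * M0 ^ d) := by
    rw [mul_pow, inv_pow]
    field_simp
  rw [e1, e2, div_le_div_iff₀ (by positivity) (by positivity)]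
  have h2 : h ^ (d + 1) ≤ h ^ d := pow_le_pow_of_le_one h0.le h1 (by omega)
  calc E * c ^ (d + 1) * A1 ^ (d + 1) * h ^ (d + 1) * (4 * Kk * M0 ^ d)
      = h ^ (d + 1) * ((4 * E * c ^ (d + 1) * A1 ^ (d + 1) * Kk) * M0 ^ d) := by ring
    _ ≤ h ^ d * ((4 * E * c ^ (d + 1) * A1 ^ (d + 1) * Kk) * M0 ^ d) :=
        mul_le_mul_of_nonneg_right h2 (by positivity)
    _ ≤ h ^ d * (ρ * M0 ^ d) := by
        refine mul_le_mul_of_nonneg_left (mul_le_mul_of_nonneg_right hk (by positivity)) (by positivity)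
    _ = h ^ d * (M0 ^ d * ρ) := by ring
    _ ≤ _ := mul_le_mul_of_nonneg_left hb (by positivity)

end Pool.Agent.U623.HA
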