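import Mathlib

/-! # Separation of the monomials -/

set_option autoImplicit false

open Filter Topology Polynomial

namespace Pool.Agent.U623.HA

lemma asym (D e K J : ℕ) : ∃ n0 : ℕ, 1 ≤ n0 ∧ J ≤ n0 ∧ ∀ L : ℕ, n0 ≤ L → ∀ a : ℕ, L ^ (D + e + 1) ≤ a →
    (L : ℝ) ^ (K * L ^ e) ≤ (1 + (((L : ℝ) + J) ^ D)⁻¹) ^ a := by
  obtain ⟨ε, hε⟩ : ∃ ε : ℝ, ε = ((2 : ℝ) ^ (D + 1) * (K + 1))⁻¹ := ⟨_, rfl⟩
  have hε0 : 0 < ε := by rw [hε]; positivity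
  have h1 := (Real.isLittleO_log_id_atTop.bound hε0)
  have h2 : ∀ᶠ L : ℕ in atTop, ‖Real.log (L : ℝ)‖ ≤ ε * ‖id (L : ℝ)‖ :=
    tendsto_natCast_atTop_atTop.eventually h1
  obtain ⟨n1, hn1⟩ := eventually_atTop.1 h2
  refine ⟨max n1 (max 1 J), (le_max_left _ _).trans (le_max_right _ _),
    (le_max_right _ _).trans (le_max_right _ _), fun L hL a ha => ?_⟩
  have hL1 : 1 ≤ L := ((le_max_left _ _).trans (le_max_right _ _)).trans hL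
  have hLJ : J ≤ L := ((le_max_right _ _).trans (le_max_right _ _)).trans hL
  have h3 := hn1 L ((le_max_left _ _).trans hL)
  have L1 : (1 : ℝ) ≤ L := by exact_mod_cast hL1
  have L0 : (0 : ℝ) < L := by linarith
  have LJ : (J : ℝ) ≤ L := by exact_mod_cast hLJ
  have J0 : (0 : ℝ) ≤ J := J.cast_nonneg
  rw [id, Real.norm_of_nonneg (Real.log_nonneg L1), Real.norm_of_nonneg L0.le] at h3
  obtain ⟨n, hn⟩ : ∃ n : ℝ, n = ((L : ℝ) + J) ^ D := ⟨_, rfl⟩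
  have n1' : 1 ≤ n := by rw [hn]; exact one_le_pow₀ (by linarith)
  have n0' : 0 < n := by linarith
  have n2 : n ≤ 2 ^ D * (L : ℝ) ^ D := by
    rw [hn, ← mul_pow]
    exact pow_le_pow_left₀ (by linarith) (by linarith) D
  rw [← hn]
  have h4 : (2 * n)⁻¹ ≤ Real.log (1 + n⁻¹) := by
    have h5 := Real.one_sub_inv_le_log_of_pos (x := 1 + n⁻¹) (by positivity)
    refine le_trans ?_ h5
    have h6 : 1 - (1 + n⁻¹)⁻¹ = (n + 1)⁻¹ := by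
      field_simp
      ring
    rw [h6]
    exact inv_anti₀ (by positivity) (by linarith)
  have hpos : 0 < 1 + n⁻¹ := by positivity
  rw [← Real.exp_log (pow_pos L0 (K * L ^ e)), ← Real.exp_log (pow_pos hpos a), Real.exp_le_exp,
    Real.log_pow, Real.log_pow]
  have h7 : (L : ℝ) ^ (e + 1) * ((2 : ℝ) ^ (D + 1))⁻¹ ≤ (a : ℝ) * Real.log (1 + n⁻¹) := by
    have a1 : (L : ℝ) ^ (D + e + 1) ≤ a := by exact_mod_cast ha
    calc (L : ℝ) ^ (e + 1) * ((2 : ℝ) ^ (D + 1))⁻¹ = (L : ℝ) ^ (D + e + 1) * (2 * (2 ^ D * (L : ℝ) ^ D))⁻¹ := by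
          rw [add_assoc D e 1, pow_add (L : ℝ) D (e + 1), pow_succ (2 : ℝ) D]
          field_simp
      _ ≤ (a : ℝ) * (2 * n)⁻¹ := by
          refine mul_le_mul a1 (inv_anti₀ (by positivity) (by linarith)) (by positivity) (by positivity)
      _ ≤ _ := mul_le_mul_of_nonneg_left h4 (by positivity)
  refine le_trans ?_ h7
  have h8 : (K : ℝ) * ε ≤ ((2 : ℝ) ^ (D + 1))⁻¹ := by
    rw [hε, mul_inv, ← mul_assoc, mul_comm (K : ℝ), mul_assoc]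
    refine mul_le_of_le_one_right (by positivity) ?_
    rw [← div_eq_mul_inv, div_le_one (by positivity)]
    linarith
  push_cast
  calc (K : ℝ) * (L : ℝ) ^ e * Real.log L ≤ K * (L : ℝ) ^ e * (ε * L) :=
        mul_le_mul_of_nonneg_left h3 (by positivity)
    _ = (L : ℝ) ^ (e + 1) * (K * ε) := by ring
    _ ≤ _ := mul_le_mul_of_nonneg_left h8 (by positivity)

/-- the number `∏ (L + j)^(α_j)` -/
def Nn {J : ℕ} (α : Fin (J + 1) →₀ ℕ) (L : ℕ) : ℕ := ∏ j : Fin (J + 1), (L + (j : ℕ)) ^ α j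

noncomputable def pa {J : ℕ} (α : Fin (J + 1) →₀ ℕ) : ℝ[X] :=
  ∏ j : Fin (J + 1), (X - C (-((j : ℕ) : ℝ))) ^ α j

lemma pa_eval {J : ℕ} (α : Fin (J + 1) →₀ ℕ) (L : ℕ) : (pa α).eval (L : ℝ) = (Nn α L : ℝ) := by
  unfold pa Nn
  rw [eval_prod]
  push_cast
  refine Finset.prod_congr rfl fun j _ => ?_
  rw [eval_pow, eval_sub, eval_X, eval_C, sub_neg_eq_add]

lemma pa_ne {J : ℕ} (α : Fin (J + 1) →₀ ℕ) : pa α ≠ 0 :=
  Finset.prod_ne_zero_iff.2 fun _ _ => pow_ne_zero _ (X_sub_C_ne_zero _)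

lemma pa_count {J : ℕ} (α : Fin (J + 1) →₀ ℕ) (i : Fin (J + 1)) :
    (pa α).roots.count (-((i : ℕ) : ℝ)) = α i := by
  classical
  have h := pa_ne α
  unfold pa at h ⊢
  rw [roots_prod _ _ h, Multiset.count_bind]
  change ∑ j : Fin (J + 1), _ = _
  rw [Finset.sum_eq_single i]
  · rw [roots_pow, roots_X_sub_C, Multiset.count_nsmul, Multiset.count_singleton_self, mul_one]
  · intro j _ hj
    rw [roots_pow, roots_X_sub_C, Multiset.count_nsmul, Multiset.count_singleton, if_neg, mul_zero]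
    intro h2
    apply hj
    have h3 : ((i : ℕ) : ℝ) = ((j : ℕ) : ℝ) := neg_injective h2
    exact Fin.ext (by exact_mod_cast h3.symm)
  · intro hi
    exact absurd (Finset.mem_univ i) hi

lemma Nn_ne {J : ℕ} {α β : Fin (J + 1) →₀ ℕ} (h : α ≠ β) : ∃ n0 : ℕ, ∀ L : ℕ, n0 ≤ L → Nn α L ≠ Nn β L := by
  have h1 : pa α - pa β ≠ 0 := by
    intro h2
    apply h
    rw [sub_eq_zero] at h2
    ext i
    rw [← pa_count α i, ← pa_count β i, h2]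
  have h2 : ∀ᶠ L : ℕ in atTop, ¬ (pa α - pa β).IsRoot (L : ℝ) :=
    tendsto_natCast_atTop_atTop.eventually (Polynomial.eventually_atTop_not_isRoot _ h1)
  obtain ⟨n0, hn⟩ := eventually_atTop.1 h2
  refine ⟨n0, fun L hL he => hn L hL ?_⟩
  rw [IsRoot.def, eval_sub, pa_eval, pa_eval, he, sub_self]

lemma Nn_sep {J : ℕ} (A : Finset (Fin (J + 1) →₀ ℕ)) : ∃ n0 : ℕ, ∀ L : ℕ, n0 ≤ L →
    ∀ α ∈ A, ∀ β ∈ A, α ≠ β → Nn α L ≠ Nn β L := by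
  classical
  have h : ∀ p : (Fin (J + 1) →₀ ℕ) × (Fin (J + 1) →₀ ℕ), ∃ n0 : ℕ, p.1 ≠ p.2 → ∀ L : ℕ, n0 ≤ L →
      Nn p.1 L ≠ Nn p.2 L := by
    intro p
    by_cases hp : p.1 = p.2
    · exact ⟨0, fun h => absurd hp h⟩
    · obtain ⟨n0, h⟩ := Nn_ne hp
      exact ⟨n0, fun _ => h⟩
  choose f hf using h
  refine ⟨(A ×ˢ A).sup f, fun L hL α hα β hβ hne => hf (α, β) hne L ?_⟩
  exact (Finset.le_sup (f := f) (Finset.mem_product.2 ⟨hα, hβ⟩)).trans hL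

lemma mon_eq {J : ℕ} (α : Fin (J + 1) →₀ ℕ) (L a : ℕ) (h : Fin (J + 1) → ℝ) :
    ∏ j : Fin (J + 1), ((((L + (j : ℕ) : ℕ) : ℝ) ^ a)⁻¹ * h j) ^ α j =
      ((Nn α L : ℝ) ^ a)⁻¹ * ∏ j : Fin (J + 1), h j ^ α j := by
  unfold Nn
  simp only [mul_pow]
  rw [Finset.prod_mul_distrib]
  congr 1
  push_cast
  rw [← Finset.prod_pow, ← Finset.prod_inv_distrib]
  refine Finset.prod_congr rfl fun j _ => ?_
  rw [inv_pow, ← pow_mul, ← pow_mul, mul_comm]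

lemma prod_le {J d : ℕ} {α : Fin (J + 1) →₀ ℕ} (hα : α ∈ Finset.finsuppAntidiag (Finset.univ : Finset (Fin (J + 1))) d)
    {x : Fin (J + 1) → ℝ} {M : ℝ} (h0 : ∀ j, 0 ≤ x j) (h : ∀ j, α j ≠ 0 → x j ≤ M) :
    ∏ j, x j ^ α j ≤ M ^ d := by
  rw [Finset.mem_finsuppAntidiag] at hα
  rw [← hα.1, ← Finset.prod_pow_eq_pow_sum]
  refine Finset.prod_le_prod (fun j _ => pow_nonneg (h0 j) _) fun j _ => ?_
  by_cases hj : α j = 0
  · simp [hj]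
  · exact pow_le_pow_left₀ (h0 j) (h j hj) _

lemma le_prod {J d : ℕ} {α : Fin (J + 1) →₀ ℕ} (hα : α ∈ Finset.finsuppAntidiag (Finset.univ : Finset (Fin (J + 1))) d)
    {x : Fin (J + 1) → ℝ} {M : ℝ} (h0 : 0 ≤ M) (h : ∀ j, α j ≠ 0 → M ≤ x j) :
    M ^ d ≤ ∏ j, x j ^ α j := by
  rw [Finset.mem_finsuppAntidiag] at hα
  rw [← hα.1, ← Finset.prod_pow_eq_pow_sum]
  refine Finset.prod_le_prod (fun j _ => pow_nonneg h0 _) fun j _ => ?_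
  by_cases hj : α j = 0
  · simp [hj]
  · exact pow_le_pow_left₀ h0 (h j hj) _

lemma Nn_le {J d : ℕ} {α : Fin (J + 1) →₀ ℕ} (hα : α ∈ Finset.finsuppAntidiag (Finset.univ : Finset (Fin (J + 1))) d)
    (L : ℕ) : (Nn α L : ℝ) ≤ ((L : ℝ) + J) ^ d := by
  unfold Nn
  push_cast
  refine prod_le hα (fun j => by positivity) fun j _ => ?_
  have : ((j : ℕ) : ℝ) ≤ J := by exact_mod_cast Nat.lt_succ_iff.1 j.2
  linarith

lemma Nn_pos {J : ℕ} (α : Fin (J + 1) →₀ ℕ) {L : ℕ} (hL : 1 ≤ L) : 0 < Nn α L := by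
  unfold Nn
  exact Finset.prod_pos fun j _ => pow_pos (by omega) _

/-- one of two monomials is much smaller than the other -/
lemma gap {J d D : ℕ} {α β : Fin (J + 1) →₀ ℕ} (hd : d ≤ D)
    (hα : α ∈ Finset.finsuppAntidiag (Finset.univ : Finset (Fin (J + 1))) d)
    (hβ : β ∈ Finset.finsuppAntidiag (Finset.univ : Finset (Fin (J + 1))) d)
    {L a : ℕ} (hL : 1 ≤ L) {h : Fin (J + 1) → ℝ} {h0 Q : ℝ} (hh0 : 0 < h0)
    (hh : ∀ j, h0 ≤ h j ∧ h j ≤ h0 * Q) (hlt : Nn β L < Nn α L) :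
    (1 + (((L : ℝ) + J) ^ D)⁻¹) ^ a * ∏ j : Fin (J + 1), ((((L + (j : ℕ) : ℕ) : ℝ) ^ a)⁻¹ * h j) ^ α j ≤
      Q ^ d * ∏ j : Fin (J + 1), ((((L + (j : ℕ) : ℕ) : ℝ) ^ a)⁻¹ * h j) ^ β j := by
  rw [mon_eq, mon_eq]
  have L1 : (1 : ℝ) ≤ L := by exact_mod_cast hL
  have J0 : (0 : ℝ) ≤ J := J.cast_nonneg
  have b0 : (0 : ℝ) < Nn β L := by exact_mod_cast Nn_pos β hL
  have a0 : (0 : ℝ) < Nn α L := by exact_mod_cast Nn_pos α hL
  have h1 : (Nn β L : ℝ) * (1 + (((L : ℝ) + J) ^ D)⁻¹) ≤ Nn α L := by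
    have h2 : (Nn β L : ℝ) + 1 ≤ Nn α L := by exact_mod_cast hlt
    refine le_trans ?_ h2
    rw [mul_add, mul_one]
    have h3 : (Nn β L : ℝ) * (((L : ℝ) + J) ^ D)⁻¹ ≤ 1 := by
      rw [← div_eq_mul_inv, div_le_one (by positivity)]
      exact (Nn_le hβ L).trans (pow_le_pow_right₀ (by linarith) hd)
    linarith
  have h2 : (1 + (((L : ℝ) + J) ^ D)⁻¹) ^ a * ((Nn α L : ℝ) ^ a)⁻¹ ≤ ((Nn β L : ℝ) ^ a)⁻¹ := by
    rw [← inv_pow (Nn α L : ℝ) a, ← inv_pow (Nn β L : ℝ) a, ← mul_pow]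
    refine pow_le_pow_left₀ (by positivity) ?_ a
    rw [← div_eq_mul_inv, div_le_iff₀ a0, inv_mul_eq_div, le_div_iff₀ b0, mul_comm]
    exact h1
  have Q0 : 0 ≤ Q := by
    have := (hh 0).1.trans (hh 0).2
    by_contra hQ
    push Not at hQ
    nlinarith
  have h3 : ∏ j : Fin (J + 1), h j ^ α j ≤ (h0 * Q) ^ d :=
    prod_le hα (fun j => hh0.le.trans (hh j).1) fun j _ => (hh j).2
  have h4 : h0 ^ d ≤ ∏ j : Fin (J + 1), h j ^ β j := le_prod hβ hh0.le fun j _ => (hh j).1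
  have h5 : (0 : ℝ) ≤ ∏ j : Fin (J + 1), h j ^ α j :=
    Finset.prod_nonneg fun j _ => pow_nonneg (hh0.le.trans (hh j).1) _
  calc (1 + (((L : ℝ) + J) ^ D)⁻¹) ^ a * (((Nn α L : ℝ) ^ a)⁻¹ * ∏ j : Fin (J + 1), h j ^ α j)
      = ((1 + (((L : ℝ) + J) ^ D)⁻¹) ^ a * ((Nn α L : ℝ) ^ a)⁻¹) * ∏ j : Fin (J + 1), h j ^ α j := by ring
    _ ≤ ((Nn β L : ℝ) ^ a)⁻¹ * (h0 * Q) ^ d := mul_le_mul h2 h3 h5 (by positivity)
    _ = Q ^ d * (((Nn β L : ℝ) ^ a)⁻¹ * h0 ^ d) := by rw [mul_pow]; ring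
    _ ≤ _ := by
        refine mul_le_mul_of_nonneg_left ?_ (pow_nonneg Q0 d)
        exact mul_le_mul_of_nonneg_left h4 (by positivity)

lemma dom {ι : Type*} (S : Finset ι) (c g : ι → ℝ) {lo hi ε : ℝ} (hc : ∀ i ∈ S, lo ≤ |c i| ∧ |c i| ≤ hi)
    (hg : ∀ i ∈ S, 0 < g i) (hhi : 0 ≤ hi) (hε : ε < 1) (hε0 : 0 ≤ ε)
    (hsep : ∀ i ∈ S, ∀ j ∈ S, i ≠ j → g i ≤ ε * g j ∨ g j ≤ ε * g i)
    (hlo : (S.card : ℝ) * (hi * ε) ≤ lo / 2) {i1 : ι} (h1 : i1 ∈ S) (hlo0 : 0 ≤ lo) :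
    lo / 2 * g i1 ≤ |∑ i ∈ S, c i * g i| := by
  classical
  obtain ⟨i0, hi0, hmax⟩ := Finset.exists_max_image S g ⟨i1, h1⟩
  have h2 : ∀ j ∈ S, j ≠ i0 → g j ≤ ε * g i0 := by
    intro j hj hne
    rcases hsep j hj i0 hi0 hne with h | h
    · exact h
    · exfalso
      have h3 := hmax j hj
      have h4 := hg j hj
      have h5 := hg i0 hi0
      nlinarith
  rw [← Finset.add_sum_erase S _ hi0]
  have h3 : |∑ i ∈ S.erase i0, c i * g i| ≤ (S.card : ℝ) * (hi * ε) * g i0 := by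
    calc |∑ i ∈ S.erase i0, c i * g i| ≤ ∑ i ∈ S.erase i0, |c i * g i| := Finset.abs_sum_le_sum_abs _ _
      _ ≤ ∑ i ∈ S.erase i0, hi * (ε * g i0) := by
          refine Finset.sum_le_sum fun i hi' => ?_
          have hiS := Finset.mem_of_mem_erase hi'
          rw [abs_mul, abs_of_pos (hg i hiS)]
          exact mul_le_mul (hc i hiS).2 (h2 i hiS (Finset.ne_of_mem_erase hi')) (hg i hiS).le hhi
      _ = ((S.erase i0).card : ℝ) * (hi * (ε * g i0)) := by rw [Finset.sum_const, nsmul_eq_mul]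
      _ ≤ (S.card : ℝ) * (hi * (ε * g i0)) := by
          refine mul_le_mul_of_nonneg_right ?_ (mul_nonneg hhi (mul_nonneg hε0 (hg i0 hi0).le))
          exact_mod_cast Finset.card_le_card (Finset.erase_subset _ _)
      _ = _ := by ring
  have h4 : lo * g i0 ≤ |c i0 * g i0| := by
    rw [abs_mul, abs_of_pos (hg i0 hi0)]
    exact mul_le_mul_of_nonneg_right (hc i0 hi0).1 (hg i0 hi0).le
  have h5 := abs_sub_abs_le_abs_sub (c i0 * g i0) (-(∑ i ∈ S.erase i0, c i * g i))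
  rw [abs_neg, sub_neg_eq_add] at h5
  have h6 : (S.card : ℝ) * (hi * ε) * g i0 ≤ lo / 2 * g i0 := mul_le_mul_of_nonneg_right hlo (hg i0 hi0).le
  have h7 : lo / 2 * g i1 ≤ lo / 2 * g i0 := mul_le_mul_of_nonneg_left (hmax i1 h1) (by linarith)
  linarith

end Pool.Agent.U623.HA
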