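import Pool.Agent.U623.HF.Main

/-! # The weights of the last part -/

set_option autoImplicit false

open Filter Topology

namespace Pool.Agent.U623.HA

open Pool.Agent.U623.HF
open Pool.Agent.H447R2.MZ (H H_cons H_cons_succ H_nil H_nonneg H_mono val Adm H_le_val)

lemma H_bin (s : List ℕ) : ∀ n : ℕ, H s n ≤ (n.choose s.length : ℝ) * H s s.length := by
  induction s with
  | nil => intro n; simp [H_nil]
  | cons a s ih =>
    have e0 : H (a :: s) (s.length + 1) = (((s.length + 1 : ℕ) : ℝ) ^ a)⁻¹ * H s s.length := by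
      rw [H_cons_succ, H_zero (a :: s) s.length (by simp), zero_add]
    intro n
    induction n with
    | zero =>
      rw [H_zero (a :: s) 0 (by simp)]
      exact mul_nonneg (by positivity) (H_nonneg _ _)
    | succ n ihn =>
      have e1 : (((n + 1).choose (s.length + 1) : ℕ) : ℝ) =
          (n.choose (s.length + 1) : ℝ) + (n.choose s.length : ℝ) := by
        rw [Nat.choose_succ_succ, add_comm]
        push_cast
        rfl
      rw [H_cons_succ, List.length_cons, e1, add_mul]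
      rw [List.length_cons] at ihn
      refine add_le_add ihn ?_
      rcases lt_or_ge n s.length with hn | hn
      · rw [H_zero s n hn, mul_zero]
        exact mul_nonneg (by positivity) (H_nonneg _ _)
      · rw [e0]
        calc (((n + 1 : ℕ) : ℝ) ^ a)⁻¹ * H s n
            ≤ (((s.length + 1 : ℕ) : ℝ) ^ a)⁻¹ * ((n.choose s.length : ℝ) * H s s.length) := by
              refine mul_le_mul ?_ (ih n) (H_nonneg _ _) (by positivity)
              refine inv_anti₀ (by positivity) (pow_le_pow_left₀ (by positivity) ?_ a)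
              exact_mod_cast Nat.succ_le_succ hn
          _ = _ := by ring

lemma H_base_le (s : List ℕ) : H s s.length ≤ 1 := by
  induction s with
  | nil => simp [H_nil]
  | cons a s ih =>
    have e0 : H (a :: s) (s.length + 1) = (((s.length + 1 : ℕ) : ℝ) ^ a)⁻¹ * H s s.length := by
      rw [H_cons_succ, H_zero (a :: s) s.length (by simp), zero_add]
    rw [List.length_cons, e0]
    have h1 : (((s.length + 1 : ℕ) : ℝ) ^ a)⁻¹ ≤ 1 := by
      refine inv_le_one_of_one_le₀ (one_le_pow₀ ?_)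
      push_cast
      have : (0 : ℝ) ≤ s.length := Nat.cast_nonneg _
      linarith
    calc _ ≤ (1 : ℝ) * 1 := mul_le_mul h1 ih (H_nonneg _ _) zero_le_one
      _ = 1 := one_mul 1

/-- the weight of the value `L + j` of the largest variable of the last part `a :: s`, `L = s.length + 1` -/
noncomputable def wt (a : ℕ) (s : List ℕ) (j : ℕ) : ℝ :=
  (((s.length + 1 + j : ℕ) : ℝ) ^ a)⁻¹ * H s (s.length + j)

lemma wt_pos (a : ℕ) (s : List ℕ) (j : ℕ) : 0 < wt a s j :=
  mul_pos (inv_pos.2 (pow_pos (by positivity) a)) (H_pos s _ (Nat.le_add_right _ _))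

lemma H_grow (s : List ℕ) (j : ℕ) : H s (s.length + j) ≤
    H s s.length * ((s.length + 1 + j : ℕ) : ℝ) ^ (s.length + 1) := by
  refine (H_bin s (s.length + j)).trans ?_
  rw [mul_comm]
  refine mul_le_mul_of_nonneg_left ?_ (H_nonneg _ _)
  have h1 : (s.length + j).choose s.length ≤ (s.length + 1 + j) ^ (s.length + 1) :=
    (Nat.choose_le_pow _ _).trans ((Nat.pow_le_pow_left (by omega) _).trans
      (Nat.pow_le_pow_right (by omega) (by omega)))
  exact_mod_cast h1

lemma H_grow' (s : List ℕ) (j : ℕ) : H s (s.length + j) ≤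
    H s s.length * ((s.length + 1 + j : ℕ) : ℝ) ^ j := by
  refine (H_bin s (s.length + j)).trans ?_
  rw [mul_comm]
  refine mul_le_mul_of_nonneg_left ?_ (H_nonneg _ _)
  have h1 : (s.length + j).choose s.length ≤ (s.length + 1 + j) ^ j := by
    rw [Nat.choose_symm_add]
    exact (Nat.choose_le_pow _ _).trans (Nat.pow_le_pow_left (by omega) _)
  exact_mod_cast h1

lemma hs_sum' {w : List ℕ} {a : ℕ} {s : List ℕ} (h : Adm (w.reverse ++ a :: s)) :
    HasSum (fun j : ℕ => T w (s.length + 1 + j) * wt a s j) (val (w.reverse ++ a :: s)) := by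
  have h1 := hs_sum w a s h
  have h2 : ∑ i ∈ Finset.range s.length, T w (i + 1) * ((((i + 1 : ℕ) : ℝ) ^ a)⁻¹ * H s i) = 0 := by
    refine Finset.sum_eq_zero fun i hi => ?_
    rw [H_zero s i (Finset.mem_range.1 hi)]
    ring
  have h3 := (hasSum_nat_add_iff' (f := fun m : ℕ => T w (m + 1) * ((((m + 1 : ℕ) : ℝ) ^ a)⁻¹ * H s m))
    s.length).2 h1
  rw [h2, sub_zero] at h3
  have e : (fun j : ℕ => T w (s.length + 1 + j) * wt a s j) = fun j : ℕ => T w (j + s.length + 1) *
      ((((j + s.length + 1 : ℕ) : ℝ) ^ a)⁻¹ * H s (j + s.length)) := by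
    funext j
    unfold wt
    rw [show s.length + 1 + j = j + s.length + 1 by omega, show s.length + j = j + s.length by omega]
  rw [e]
  exact h3

/-- the constant `∑ 1 / n^2` -/
noncomputable def c2 : ℝ := ∑' n : ℕ, (((n + 1 : ℕ) : ℝ) ^ 2)⁻¹

lemma c2_sum : HasSum (fun n : ℕ => (((n + 1 : ℕ) : ℝ) ^ 2)⁻¹) c2 := by
  have h : Summable fun n : ℕ => ((n : ℝ) ^ 2)⁻¹ := Real.summable_nat_pow_inv.2 (by norm_num)
  exact ((summable_nat_add_iff 1).2 h).hasSum

lemma c2_pos : 1 ≤ c2 := by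
  have h := c2_sum
  have h1 := h.summable.sum_le_tsum (Finset.range 1) (fun i _ => by positivity)
  rw [h.tsum_eq] at h1
  simpa using h1

/-- the bound for the weights beyond the first `k` -/
noncomputable def tb (a : ℕ) (s : List ℕ) (k : ℕ) : ℝ :=
  c2 * H s s.length * (((s.length + 1 + k : ℕ) : ℝ) ^ (s.length + 3) * ((((s.length + 1 + k : ℕ) : ℝ) ^ a)⁻¹))

lemma wt_le {a : ℕ} {s : List ℕ} (ha : s.length + 3 ≤ a) (k j : ℕ) :
    wt a s (j + k) ≤ H s s.length * (((s.length + 1 + k : ℕ) : ℝ) ^ (s.length + 3) *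
      ((((s.length + 1 + k : ℕ) : ℝ) ^ a)⁻¹)) * (((j + 1 : ℕ) : ℝ) ^ 2)⁻¹ := by
  obtain ⟨b, rfl⟩ := Nat.exists_eq_add_of_le ha
  obtain ⟨R, hR⟩ : ∃ R : ℝ, R = ((s.length + 1 + k : ℕ) : ℝ) := ⟨_, rfl⟩
  obtain ⟨x, hx⟩ : ∃ x : ℝ, x = ((s.length + 1 + (j + k) : ℕ) : ℝ) := ⟨_, rfl⟩
  have R0 : 0 < R := by rw [hR]; positivity
  have x0 : 0 < x := by rw [hx]; positivity
  have hRx : R ≤ x := by rw [hR, hx]; push_cast; have : (0 : ℝ) ≤ j := j.cast_nonneg; linarith
  have hjx : ((j + 1 : ℕ) : ℝ) ≤ x := by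
    rw [hx]; push_cast
    have : (0 : ℝ) ≤ s.length := Nat.cast_nonneg _
    have : (0 : ℝ) ≤ k := Nat.cast_nonneg _
    linarith
  have h1 := H_grow s (j + k)
  rw [← hx] at h1
  unfold wt
  rw [← hx, ← hR]
  calc (x ^ (s.length + 3 + b))⁻¹ * H s (s.length + (j + k))
      ≤ (x ^ (s.length + 3 + b))⁻¹ * (H s s.length * x ^ (s.length + 1)) :=
        mul_le_mul_of_nonneg_left h1 (by positivity)
    _ = H s s.length * ((x ^ b)⁻¹ * (x ^ 2)⁻¹) := by
        rw [pow_add, pow_add]
        field_simp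
        ring
    _ ≤ H s s.length * ((R ^ b)⁻¹ * (((j + 1 : ℕ) : ℝ) ^ 2)⁻¹) := by
        refine mul_le_mul_of_nonneg_left ?_ (H_nonneg _ _)
        exact mul_le_mul (inv_anti₀ (by positivity) (pow_le_pow_left₀ R0.le hRx b))
          (inv_anti₀ (by positivity) (pow_le_pow_left₀ (by positivity) hjx 2)) (by positivity) (by positivity)
    _ = _ := by
        rw [pow_add R (s.length + 3) b]
        field_simp

lemma tail_le {a : ℕ} {s : List ℕ} (ha : s.length + 3 ≤ a) {f : ℕ → ℝ} {V C : ℝ} (hC : 0 ≤ C)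
    (hf : HasSum f V) (hfb : ∀ j, 0 ≤ f j ∧ f j ≤ C * wt a s j) (k : ℕ) :
    0 ≤ V - ∑ j ∈ Finset.range k, f j ∧ V - ∑ j ∈ Finset.range k, f j ≤ C * tb a s k := by
  have h1 := (hasSum_nat_add_iff' (f := f) k).2 hf
  refine ⟨h1.nonneg fun j => (hfb _).1, ?_⟩
  have h2 := (c2_sum.mul_left (C * (H s s.length * (((s.length + 1 + k : ℕ) : ℝ) ^ (s.length + 3) *
      ((((s.length + 1 + k : ℕ) : ℝ) ^ a)⁻¹)))))
  refine (hasSum_le (fun j => ?_) h1 h2).trans (le_of_eq ?_)
  · refine (hfb _).2.trans ?_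
    rw [mul_assoc]
    exact mul_le_mul_of_nonneg_left (wt_le ha k j) hC
  · unfold tb
    ring

end Pool.Agent.U623.HA
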