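import Pool.Agent.U623.HA.Pol
import Pool.Agent.U623.HA.Sep
import Pool.Agent.U623.HA.Wt
import Pool.Agent.U623.HA.Lip

/-! # The dominant monomial -/

set_option autoImplicit false

open Filter Topology MvPolynomial

namespace Pool.Agent.U623.HA

open Pool.Agent.U623.HF
open Pool.Agent.H447R2.MZ (H H_cons H_cons_succ H_nil H_nonneg H_mono val Adm H_le_val)

variable {σ : Type*}

/-- uniform exponents -/
lemma two_unif {ι : Type*} (S : Finset ι) (f : ι → ℕ → ℝ) (h : ∀ i ∈ S, Two (f i)) :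
    ∃ K n0 : ℕ, ∀ i ∈ S, ∀ m : ℕ, n0 ≤ m → ((m : ℝ) ^ K)⁻¹ ≤ |f i m| ∧ |f i m| ≤ (m : ℝ) ^ K := by
  classical
  choose! K n h using h
  refine ⟨S.sup K, max (S.sup n) 1, fun i hi m hm => ?_⟩
  have h1 : K i ≤ S.sup K := Finset.le_sup hi
  have h2 : n i ≤ S.sup n := Finset.le_sup hi
  have m1 : (1 : ℝ) ≤ m := by exact_mod_cast (le_max_right _ _).trans hm
  obtain ⟨a, b⟩ := h i hi m (h2.trans ((le_max_left _ _).trans hm))
  exact ⟨(inv_anti₀ (by positivity) (pow_le_pow_right₀ m1 h1)).trans a, b.trans (pow_le_pow_right₀ m1 h1)⟩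

theorem dominance (W : σ → List ℕ) (hW : ∀ u, RA (W u)) (hinj : Function.Injective W) {D d : ℕ}
    (hd : d ≤ D) (P : MvPolynomial σ ℝ) (hP : P.IsHomogeneous d) (hP0 : P ≠ 0) :
    ∃ J0 J K n0 : ℕ, J = 2 ^ d * J0 ∧ ∀ (a : ℕ) (s : List ℕ), n0 ≤ s.length + 1 → (s.length + 1) ^ (D + 1) ≤ a →
      (((s.length + 1 : ℕ) : ℝ) ^ K)⁻¹ / 2 * ((((s.length + 1 + J0 : ℕ) : ℝ) ^ a)⁻¹ * H s s.length) ^ d ≤
        |eval (fun u => ∑ j : Fin (J + 1), T (W u) (s.length + 1 + j) * wt a s j) P| := by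
  classical
  obtain ⟨J0, hJ0⟩ := span_main W hW hinj P hP0
  obtain ⟨J, hJ⟩ : ∃ J, J = 2 ^ d * J0 := ⟨_, rfl⟩
  have hJJ : J0 ≤ J := by
    rw [hJ]
    exact Nat.le_mul_of_pos_left _ (by positivity)
  obtain ⟨α0, hα0, hα0'⟩ := hJ0 J hJJ
  obtain ⟨A, hA⟩ : ∃ A, A = Finset.finsuppAntidiag (Finset.univ : Finset (Fin (J + 1))) d := ⟨_, rfl⟩
  obtain ⟨S, hS⟩ : ∃ S, S = A.filter (fun α => ¬ ∀ m : ℕ, 1 ≤ m → coeff α (G W J m P) = 0) := ⟨_, rfl⟩
  have hSA : S ⊆ A := by rw [hS]; exact Finset.filter_subset _ _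
  have hα0A : α0 ∈ A := by
    rw [hA, Finset.mem_finsuppAntidiag]
    refine ⟨?_, Finset.subset_univ _⟩
    have h1 := G_hom W J 1 hP hα0
    rw [Finsupp.weight_apply] at h1
    rw [← h1, Finsupp.sum_fintype _ _ (by simp)]
    simp
  have hα0S : α0 ∈ S := by
    rw [hS, Finset.mem_filter]
    exact ⟨hα0A, fun h => hα0 (h 1 le_rfl)⟩
  obtain ⟨K, n1, hK⟩ := two_unif S (fun α m => coeff α (G W J m P)) (by
    intro α hα
    rw [hS, Finset.mem_filter] at hα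
    exact (Cl_dich (G_cl W hW J P α)).resolve_left hα.2)
  obtain ⟨n2, hn2⟩ := Nn_sep A
  obtain ⟨n3, -, hn3J, hn3⟩ := asym D 0 (2 * K + 1 + 2 * J * D) J
  refine ⟨J0, J, K, max (max n1 n2) (max n3 (max 2 (2 * S.card))), hJ, fun a s hn ha => ?_⟩
  obtain ⟨L, hL⟩ : ∃ L, L = s.length + 1 := ⟨_, rfl⟩
  rw [← hL] at hn ha ⊢
  have g1 : n1 ≤ L := ((le_max_left _ _).trans (le_max_left _ _)).trans hn
  have g2 : n2 ≤ L := ((le_max_right _ _).trans (le_max_left _ _)).trans hn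
  have g3 : n3 ≤ L := ((le_max_left _ _).trans (le_max_right _ _)).trans hn
  have g4 : 2 ≤ L := ((le_max_left _ _).trans ((le_max_right _ _).trans (le_max_right _ _))).trans hn
  have g5 : 2 * S.card ≤ L := ((le_max_right _ _).trans ((le_max_right _ _).trans (le_max_right _ _))).trans hn
  have hρ := hn3 L g3 a ha
  have hLJ : J ≤ L := hn3J.trans g3
  have L1 : (1 : ℝ) ≤ L := by exact_mod_cast (by omega : 1 ≤ L)
  have L0 : (0 : ℝ) < L := by linarith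
  obtain ⟨ρ, hρe⟩ : ∃ ρ, ρ = (1 + (((L : ℝ) + J) ^ D)⁻¹) ^ a := ⟨_, rfl⟩
  rw [← hρe, pow_zero, mul_one] at hρ
  obtain ⟨h0, hh0⟩ : ∃ h0, h0 = H s s.length := ⟨_, rfl⟩
  have h0p : 0 < h0 := by rw [hh0]; exact H_pos s _ le_rfl
  rw [← hh0]
  obtain ⟨h, hh⟩ : ∃ h : Fin (J + 1) → ℝ, h = fun j : Fin (J + 1) => H s (s.length + (j : ℕ)) := ⟨_, rfl⟩
  obtain ⟨Q, hQ⟩ : ∃ Q : ℝ, Q = (L : ℝ) ^ (2 * J) := ⟨_, rfl⟩
  have Q0 : 0 < Q := by rw [hQ]; positivity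
  have hhb : ∀ j, h0 ≤ h j ∧ h j ≤ h0 * Q := by
    intro j
    rw [hh, hh0]
    refine ⟨H_mono s (Nat.le_add_right _ _), (H_grow' s j).trans ?_⟩
    refine mul_le_mul_of_nonneg_left ?_ (H_nonneg _ _)
    have hj : (j : ℕ) ≤ J := Nat.lt_succ_iff.1 j.2
    rw [← hL, hQ, pow_mul]
    have h9 : L + (j : ℕ) ≤ L ^ 2 := by nlinarith
    have h9' : ((L + (j : ℕ) : ℕ) : ℝ) ≤ (L : ℝ) ^ 2 := by exact_mod_cast h9
    exact (pow_le_pow_left₀ (by positivity) h9' _).trans (pow_le_pow_right₀ (one_le_pow₀ L1) hj)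
  have hwt : ∀ j : Fin (J + 1), wt a s j = (((L + (j : ℕ) : ℕ) : ℝ) ^ a)⁻¹ * h j := by
    intro j
    rw [hh, hL]
    rfl
  have hexp := G_expand W J L hP (fun j : Fin (J + 1) => wt a s j)
  rw [hexp, ← hA]
  have hsub : ∑ α ∈ A, coeff α (G W J L P) * ∏ j : Fin (J + 1), wt a s j ^ α j =
      ∑ α ∈ S, coeff α (G W J L P) * ∏ j : Fin (J + 1), wt a s j ^ α j := by
    refine (Finset.sum_subset hSA fun α hαA hαS => ?_).symm
    rw [hS, Finset.mem_filter] at hαS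
    have h1 : ∀ m : ℕ, 1 ≤ m → coeff α (G W J m P) = 0 := by
      by_contra hcon
      exact hαS ⟨hαA, hcon⟩
    rw [h1 L (by omega), zero_mul]
  rw [hsub]
  have hpos : ∀ α : Fin (J + 1) →₀ ℕ, 0 < ∏ j : Fin (J + 1), wt a s j ^ α j := fun α =>
    Finset.prod_pos fun j _ => pow_pos (wt_pos a s j) _
  have hLK : (L : ℝ) ^ (2 * K + 1) * Q ^ d ≤ ρ := by
    refine le_trans ?_ hρ
    rw [hQ, ← pow_mul, ← pow_add]
    refine pow_le_pow_right₀ L1 ?_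
    exact Nat.add_le_add_left (Nat.mul_le_mul_left _ hd) _
  have hgap : ∀ α ∈ A, ∀ β ∈ A, Nn β L < Nn α L → ∏ j : Fin (J + 1), wt a s j ^ α j ≤
      ((L : ℝ) ^ (2 * K + 1))⁻¹ * ∏ j : Fin (J + 1), wt a s j ^ β j := by
    intro α hα β hβ hlt
    rw [hA] at hα hβ
    have h1 := gap (a := a) hd hα hβ (by omega) h0p hhb hlt
    rw [← hρe] at h1
    have h2 : ∀ γ : Fin (J + 1) →₀ ℕ, ∏ j : Fin (J + 1), ((((L + (j : ℕ) : ℕ) : ℝ) ^ a)⁻¹ * h j) ^ γ j =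
        ∏ j : Fin (J + 1), wt a s j ^ γ j := fun γ => Finset.prod_congr rfl fun j _ => by rw [hwt]
    rw [h2, h2] at h1
    rw [inv_mul_eq_div, le_div_iff₀ (by positivity)]
    refine le_of_mul_le_mul_left ?_ (pow_pos Q0 d)
    refine le_trans ?_ h1
    have h3 := mul_le_mul_of_nonneg_right hLK (hpos α).le
    refine le_trans (le_of_eq ?_) h3
    ring
  have hdom := dom S (fun α => coeff α (G W J L P)) (fun α => ∏ j : Fin (J + 1), wt a s j ^ α j)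
    (lo := ((L : ℝ) ^ K)⁻¹) (hi := (L : ℝ) ^ K) (ε := ((L : ℝ) ^ (2 * K + 1))⁻¹)
    (fun α hα => hK α hα L g1) (fun α _ => hpos α) (by positivity) (by
      refine inv_lt_one_of_one_lt₀ (one_lt_pow₀ ?_ (by omega))
      exact_mod_cast (by omega : 1 < L)) (by positivity) (by
      intro α hα β hβ hne
      rcases lt_or_gt_of_ne (hn2 L g2 α (hSA hα) β (hSA hβ) hne) with h1 | h1
      · exact Or.inr (hgap β (hSA hβ) α (hSA hα) h1)
      · exact Or.inl (hgap α (hSA hα) β (hSA hβ) h1)) (by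
      have e : (L : ℝ) ^ (2 * K + 1) = (L : ℝ) ^ K * (L : ℝ) ^ K * L := by ring
      have g5' : 2 * (S.card : ℝ) ≤ L := by exact_mod_cast g5
      rw [e, div_eq_mul_inv, le_mul_inv_iff₀ (by norm_num)]
      have e2 : (S.card : ℝ) * ((L : ℝ) ^ K * ((L : ℝ) ^ K * (L : ℝ) ^ K * L)⁻¹) * 2 =
          (2 * (S.card : ℝ) * (L : ℝ)⁻¹) * ((L : ℝ) ^ K)⁻¹ := by
        field_simp
      rw [e2]
      refine mul_le_of_le_one_left (by positivity) ?_
      rw [← div_eq_mul_inv, div_le_one L0]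
      exact g5') hα0S (by positivity)
  refine le_trans ?_ hdom
  refine mul_le_mul_of_nonneg_left ?_ (by positivity)
  rw [hA] at hα0A
  refine le_prod hα0A (by positivity) fun j hj => ?_
  have hj2 : (j : ℕ) ≤ J0 := by
    by_contra hcon
    push Not at hcon
    exact hj (hα0' j hcon)
  rw [hwt]
  refine mul_le_mul ?_ (hhb j).1 h0p.le (by positivity)
  refine inv_anti₀ (by positivity) (pow_le_pow_left₀ (by positivity) ?_ a)
  exact_mod_cast Nat.add_le_add_left hj2 L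

end Pool.Agent.U623.HA
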