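import Pool.Agent.U623.HA.Hom

/-! # General polynomials -/

set_option autoImplicit false

open Filter Topology MvPolynomial

namespace Pool.Agent.U623.HA

open Pool.Agent.U623.HF
open Pool.Agent.H447R2.MZ (H H_cons H_cons_succ H_nil H_nonneg H_mono val Adm H_le_val)

variable {σ : Type*}

lemma Z_le_one {a : ℕ} {s : List ℕ} (hs : ∀ y ∈ s, 1 ≤ y) (ha : s.length + 4 ≤ a)
    (hc : c2 ≤ ((s.length + 1 : ℕ) : ℝ)) : val (a :: s) ≤ 1 := by
  have hZs : HasSum (wt a s) (val (a :: s)) := wt_sum (by omega) hs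
  have haL : s.length + 3 ≤ a := by omega
  have h1 := (tail_le haL (C := 1) zero_le_one hZs (fun j => ⟨(wt_pos a s j).le, by rw [one_mul]⟩) 0).2
  rw [Finset.sum_range_zero, sub_zero, one_mul] at h1
  refine h1.trans ?_
  unfold tb
  obtain ⟨L, hL⟩ : ∃ L : ℝ, L = ((s.length + 1 : ℕ) : ℝ) := ⟨_, rfl⟩
  have L1 : 1 ≤ L := by rw [hL]; push_cast; have : (0 : ℝ) ≤ s.length := Nat.cast_nonneg _; linarith
  rw [add_zero, ← hL]
  rw [← hL] at hc
  have c20 : 0 < c2 := lt_of_lt_of_le one_pos c2_pos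
  have L0 : 0 < L := by linarith
  calc c2 * H s s.length * (L ^ (s.length + 3) * (L ^ a)⁻¹)
      ≤ L * 1 * (L ^ (s.length + 3) * (L ^ a)⁻¹) := by
        refine mul_le_mul_of_nonneg_right (mul_le_mul hc (H_base_le s) (H_nonneg _ _) L0.le) (by positivity)
    _ = L ^ (s.length + 4) * (L ^ a)⁻¹ := by ring
    _ ≤ 1 := by
        rw [← div_eq_mul_inv, div_le_one (by positivity)]
        exact pow_le_pow_right₀ L1 ha

theorem gen (W : σ → List ℕ) (hW : ∀ u, RA (W u)) (hinj : Function.Injective W) {D : ℕ}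
    (hD : 2 ≤ D) (P : MvPolynomial σ ℝ) (hPD : P.totalDegree ≤ D) (hP0 : P ≠ 0) :
    ∃ n0 : ℕ, ∀ (a : ℕ) (s : List ℕ), (∀ x ∈ s, 1 ≤ x) → n0 ≤ s.length + 1 → (s.length + 1) ^ (D + 1) ≤ a →
      0 < val (a :: s) ∧
      val (a :: s) ^ (D + 1) ≤ |eval (fun u => val ((W u).reverse ++ a :: s)) P| := by
  classical
  have hex : ∃ d, homogeneousComponent d P ≠ 0 := by
    by_contra hcon
    push Not at hcon
    apply hP0
    rw [← sum_homogeneousComponent P]
    exact Finset.sum_eq_zero fun i _ => hcon i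
  obtain ⟨d, hd, hmin⟩ : ∃ d, homogeneousComponent d P ≠ 0 ∧ ∀ i < d, homogeneousComponent i P = 0 := by
    refine ⟨Nat.find hex, Nat.find_spec hex, fun i hi => ?_⟩
    have := Nat.find_min hex hi
    push Not at this
    exact this
  have hdD : d ≤ P.totalDegree := by
    by_contra hcon
    push Not at hcon
    exact hd (homogeneousComponent_eq_zero d P hcon)
  have hv : ∀ i : ℕ, ∃ C : ℝ, 0 ≤ C ∧ ∀ (a : ℕ) (s : List ℕ), (∀ x ∈ s, 1 ≤ x) → s.length + 3 ≤ a →
      0 < val (a :: s) ∧ |eval (fun u => val ((W u).reverse ++ a :: s)) (homogeneousComponent i P)| ≤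
        C * val (a :: s) ^ i := by
    intro i
    obtain ⟨C, hC, h⟩ := values W hW (homogeneousComponent i P) (homogeneousComponent_isHomogeneous i P)
    exact ⟨C, hC, fun a s hs ha => ⟨(h a s 0 hs ha).1, (h a s 0 hs ha).2.1⟩⟩
  choose C hC hv using hv
  obtain ⟨E, hE⟩ : ∃ E : ℝ, E = 1 + ∑ i ∈ Finset.range (P.totalDegree + 1), C i := ⟨_, rfl⟩
  have hE0 : 0 ≤ E := by
    rw [hE]
    exact add_nonneg zero_le_one (Finset.sum_nonneg fun i _ => hC i)
  obtain ⟨n1, hn1⟩ := hom W hW hinj hD (hdD.trans hPD) (homogeneousComponent d P)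
    (homogeneousComponent_isHomogeneous d P) hd E hE0
  obtain ⟨n2, hn2⟩ := exists_nat_ge c2
  refine ⟨max n1 (max n2 4), fun a s hs hn ha => ?_⟩
  have g1 : n1 ≤ s.length + 1 := (le_max_left _ _).trans hn
  have g2 : n2 ≤ s.length + 1 := ((le_max_left _ _).trans (le_max_right _ _)).trans hn
  have g3 : 4 ≤ s.length + 1 := ((le_max_right _ _).trans (le_max_right _ _)).trans hn
  have haL : s.length + 4 ≤ a := by
    have h1 : (s.length + 1) ^ 2 ≤ (s.length + 1) ^ (D + 1) := Nat.pow_le_pow_right (by omega) (by omega)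
    nlinarith
  have hZ0 := (hv 0 a s hs (by omega)).1
  have hZ1 : val (a :: s) ≤ 1 := Z_le_one hs haL (hn2.trans (by exact_mod_cast g2))
  refine ⟨hZ0, ?_⟩
  have h1 := hn1 a s hs g1 ha
  obtain ⟨V, hV⟩ : ∃ V : σ → ℝ, V = fun u => val ((W u).reverse ++ a :: s) := ⟨_, rfl⟩
  obtain ⟨Z, hZ⟩ : ∃ Z, Z = val (a :: s) := ⟨_, rfl⟩
  have hv' : ∀ i, |eval V (homogeneousComponent i P)| ≤ C i * Z ^ i := fun i => by
    rw [hV, hZ]
    exact (hv i a s hs (by omega)).2
  rw [← hV, ← hZ] at h1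
  rw [← hV, ← hZ]
  rw [← hZ] at hZ0 hZ1
  have h2 : eval V P = eval V (homogeneousComponent d P) +
      ∑ i ∈ (Finset.range (P.totalDegree + 1)).erase d, eval V (homogeneousComponent i P) := by
    conv_lhs => rw [← sum_homogeneousComponent P]
    rw [map_sum]
    exact (Finset.add_sum_erase (Finset.range (P.totalDegree + 1))
      (fun i => eval V (homogeneousComponent i P)) (Finset.mem_range.2 (Nat.lt_succ_of_le hdD))).symm
  have h3 : |∑ i ∈ (Finset.range (P.totalDegree + 1)).erase d, eval V (homogeneousComponent i P)| ≤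
      (∑ i ∈ Finset.range (P.totalDegree + 1), C i) * Z ^ (d + 1) := by
    rw [Finset.sum_mul]
    refine (Finset.abs_sum_le_sum_abs _ _).trans ?_
    refine (Finset.sum_le_sum (g := fun i => C i * Z ^ (d + 1)) fun i hi => ?_).trans
      (Finset.sum_le_sum_of_subset_of_nonneg (Finset.erase_subset _ _) fun i _ _ =>
        mul_nonneg (hC i) (by positivity))
    rcases lt_or_ge i d with hid | hid
    · rw [hmin i hid, map_zero, abs_zero]
      exact mul_nonneg (hC i) (by positivity)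
    · have hne : i ≠ d := Finset.ne_of_mem_erase hi
      refine (hv' i).trans (mul_le_mul_of_nonneg_left ?_ (hC i))
      exact pow_le_pow_of_le_one hZ0.le hZ1 (by omega)
  have h4 : Z ^ (D + 1) ≤ Z ^ (d + 1) := pow_le_pow_of_le_one hZ0.le hZ1 (by omega)
  rw [h2]
  have h5 := abs_sub_abs_le_abs_sub (eval V (homogeneousComponent d P))
    (-(∑ i ∈ (Finset.range (P.totalDegree + 1)).erase d, eval V (homogeneousComponent i P)))
  rw [abs_neg, sub_neg_eq_add] at h5
  have h6 : E * Z ^ (d + 1) = Z ^ (d + 1) + (∑ i ∈ Finset.range (P.totalDegree + 1), C i) * Z ^ (d + 1) := by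
    rw [hE]; ring
  linarith

end Pool.Agent.U623.HA
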