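import Pool.Agent.U623.HA.Dom

/-! # Homogeneous polynomials -/

set_option autoImplicit false

open Filter Topology MvPolynomial

namespace Pool.Agent.U623.HA

open Pool.Agent.U623.HF
open Pool.Agent.H447R2.MZ (H H_cons H_cons_succ H_nil H_nonneg H_mono val Adm H_le_val)

variable {σ : Type*}

lemma adm_app' {x : List ℕ} (hx : Adm x) {a : ℕ} {s : List ℕ} (ha : 2 ≤ a) (hs : ∀ y ∈ s, 1 ≤ y) :
    Adm (x ++ a :: s) := by
  refine ⟨fun y hy => ?_, fun b t hb => ?_⟩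
  · rw [List.mem_append, List.mem_cons] at hy
    rcases hy with hy | rfl | hy
    · exact hx.1 y hy
    · omega
    · exact hs y hy
  · cases x with
    | nil =>
      rw [List.nil_append, List.cons.injEq] at hb
      rw [← hb.1]
      exact ha
    | cons c x =>
      rw [List.cons_append, List.cons.injEq] at hb
      rw [← hb.1]
      exact hx.2 c x rfl

lemma wt_sum {a : ℕ} {s : List ℕ} (ha : 2 ≤ a) (hs : ∀ y ∈ s, 1 ≤ y) : HasSum (wt a s) (val (a :: s)) := by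
  have hnil : Adm ([] : List ℕ) := ⟨by simp, by simp⟩
  have h := hs_sum' (w := []) (a := a) (s := s) (by simpa using adm_app' hnil ha hs)
  simp only [T_nil, one_mul, List.reverse_nil, List.nil_append] at h
  exact h

/-- the estimates for the values, with the normalisation `Z = ζ(a, s)` -/
lemma values (W : σ → List ℕ) (hW : ∀ u, RA (W u)) (P : MvPolynomial σ ℝ) {d : ℕ} (hP : P.IsHomogeneous d) :
    ∃ C : ℝ, 0 ≤ C ∧ ∀ (a : ℕ) (s : List ℕ) (k : ℕ), (∀ x ∈ s, 1 ≤ x) → s.length + 3 ≤ a →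
      0 < val (a :: s) ∧
      |eval (fun u => val ((W u).reverse ++ a :: s)) P| ≤ C * val (a :: s) ^ d ∧
      |eval (fun u => val ((W u).reverse ++ a :: s)) P -
        eval (fun u => ∑ j : Fin k, T (W u) (s.length + 1 + j) * wt a s j) P| ≤
        val (a :: s) ^ d * (C * (tb a s k / val (a :: s))) := by
  have hB : ∀ u, ∃ C : ℝ, 0 ≤ C ∧ ∀ m, T (W u) m ≤ C := fun u => (Tb (W u) (hW u)).2.1
  choose B hB0 hB using hB
  obtain ⟨C, hC, h1, h2⟩ := lip P B hB0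
  refine ⟨C, hC, fun a s k hs ha => ?_⟩
  have ha2 : 2 ≤ a := by omega
  obtain ⟨Z, hZe⟩ : ∃ Z, Z = val (a :: s) := ⟨_, rfl⟩
  have hZs : HasSum (wt a s) Z := by rw [hZe]; exact wt_sum ha2 hs
  have hZ0 : 0 < Z := by
    have := (tail_le ha (C := 1) zero_le_one hZs (fun j => ⟨(wt_pos a s j).le, by rw [one_mul]⟩) 1).1
    rw [Finset.sum_range_one] at this
    linarith [wt_pos a s 0]
  rw [← hZe]
  obtain ⟨V, hV⟩ : ∃ V : σ → ℝ, V = fun u => val ((W u).reverse ++ a :: s) := ⟨_, rfl⟩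
  obtain ⟨y, hy⟩ : ∃ y : σ → ℝ, y = fun u => ∑ j : Fin k, T (W u) (s.length + 1 + j) * wt a s j := ⟨_, rfl⟩
  rw [← hV, ← hy]
  have hsum : ∀ u, HasSum (fun j : ℕ => T (W u) (s.length + 1 + j) * wt a s j) (V u) := fun u => by
    rw [hV]
    exact hs_sum' (adm_app' (hW u) ha2 hs)
  have hfb : ∀ u, ∀ j : ℕ, 0 ≤ T (W u) (s.length + 1 + j) * wt a s j ∧
      T (W u) (s.length + 1 + j) * wt a s j ≤ B u * wt a s j := fun u j =>
    ⟨mul_nonneg (T_nonneg (hW u) _) (wt_pos a s j).le, mul_le_mul_of_nonneg_right (hB u _) (wt_pos a s j).le⟩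
  have hVB : ∀ u, V u ≤ B u * Z := fun u => hasSum_le (fun j => (hfb u j).2) (hsum u) (hZs.mul_left (B u))
  have hyr : ∀ u, y u = ∑ j ∈ Finset.range k, T (W u) (s.length + 1 + j) * wt a s j := fun u => by
    rw [hy]
    exact Fin.sum_univ_eq_sum_range (fun j => T (W u) (s.length + 1 + j) * wt a s j) k
  have hy0 : ∀ u, 0 ≤ y u := fun u => by
    rw [hyr]
    exact Finset.sum_nonneg fun j _ => (hfb u j).1
  have ht : ∀ u, 0 ≤ V u - y u ∧ V u - y u ≤ B u * tb a s k := fun u => by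
    rw [hyr]
    exact tail_le ha (hB0 u) (hsum u) (hfb u) k
  have hV0 : ∀ u, 0 ≤ V u := fun u => by linarith [hy0 u, (ht u).1]
  have e1 : V = fun u => Z * (Z⁻¹ * V u) := by
    funext u
    rw [← mul_assoc, mul_inv_cancel₀ hZ0.ne', one_mul]
  have e2 : y = fun u => Z * (Z⁻¹ * y u) := by
    funext u
    rw [← mul_assoc, mul_inv_cancel₀ hZ0.ne', one_mul]
  have e1' : eval V P = Z ^ d * eval (fun u => Z⁻¹ * V u) P := by
    conv_lhs => rw [e1]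
    exact scale hP Z _
  have e2' : eval y P = Z ^ d * eval (fun u => Z⁻¹ * y u) P := by
    conv_lhs => rw [e2]
    exact scale hP Z _
  have hx' : ∀ u, |Z⁻¹ * V u| ≤ B u := fun u => by
    rw [abs_of_nonneg (mul_nonneg (inv_nonneg.2 hZ0.le) (hV0 u)), inv_mul_eq_div, div_le_iff₀ hZ0]
    exact hVB u
  have hy' : ∀ u, |Z⁻¹ * y u| ≤ B u := fun u => by
    rw [abs_of_nonneg (mul_nonneg (inv_nonneg.2 hZ0.le) (hy0 u)), inv_mul_eq_div, div_le_iff₀ hZ0]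
    linarith [hVB u, (ht u).1]
  have tb0 : 0 ≤ tb a s k := by
    unfold tb
    exact mul_nonneg (mul_nonneg (zero_le_one.trans c2_pos) (H_nonneg _ _)) (by positivity)
  refine ⟨hZ0, ?_, ?_⟩
  · rw [e1', abs_mul, abs_of_pos (pow_pos hZ0 d), mul_comm]
    exact mul_le_mul_of_nonneg_right (h1 _ hx') (by positivity)
  · rw [e1', e2', ← mul_sub, abs_mul, abs_of_pos (pow_pos hZ0 d)]
    refine mul_le_mul_of_nonneg_left ?_ (by positivity)
    refine h2 _ _ _ hx' hy' (by positivity) fun u => ?_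
    rw [← mul_sub, abs_of_nonneg (mul_nonneg (inv_nonneg.2 hZ0.le) (ht u).1), inv_mul_eq_div,
      mul_div_assoc' (B u)]
    exact div_le_div_of_nonneg_right (ht u).2 hZ0.le

lemma pw1 (x : ℝ) (L d K : ℕ) : x * (x ^ (L + 2)) ^ d * (x ^ 2) ^ (L + 2) * x ^ K =
    x ^ (1 + (L + 2) * d + 2 * (L + 2) + K) := by
  rw [← pow_mul, ← pow_mul, pow_add x (1 + (L + 2) * d + 2 * (L + 2)) K,
    pow_add x (1 + (L + 2) * d) (2 * (L + 2)), pow_add x 1 ((L + 2) * d), pow_one]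

lemma pw2 (x : ℝ) (L d K : ℕ) : x * (x ^ (L + 2)) ^ (d + 1) * x ^ K =
    x ^ (1 + (L + 2) * (d + 1) + K) := by
  rw [← pow_mul, pow_add x (1 + (L + 2) * (d + 1)) K, pow_add x 1 ((L + 2) * (d + 1)), pow_one]

theorem hom (W : σ → List ℕ) (hW : ∀ u, RA (W u)) (hinj : Function.Injective W) {D d : ℕ}
    (hD : 2 ≤ D) (hd : d ≤ D) (P : MvPolynomial σ ℝ) (hP : P.IsHomogeneous d) (hP0 : P ≠ 0) (E : ℝ)
    (hE : 0 ≤ E) :
    ∃ n0 : ℕ, ∀ (a : ℕ) (s : List ℕ), (∀ x ∈ s, 1 ≤ x) → n0 ≤ s.length + 1 → (s.length + 1) ^ (D + 1) ≤ a →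
      E * val (a :: s) ^ (d + 1) ≤ |eval (fun u => val ((W u).reverse ++ a :: s)) P| := by
  obtain ⟨J0, J, K, n1, hJ, hdom⟩ := dominance W hW hinj hd P hP hP0
  obtain ⟨C1, hC1, hval⟩ := values W hW P hP
  obtain ⟨n3, -, hn3J, hn3⟩ := asym 1 1 (3 * D + 7 + K) J
  obtain ⟨n4, hn4⟩ := exists_nat_ge (4 * C1 * c2 ^ (d + 1))
  obtain ⟨n5, hn5⟩ := exists_nat_ge (4 * E * c2 ^ (d + 1))
  refine ⟨max (max n1 n3) (max (max n4 n5) (max (J + 1) (max J0 4))), fun a s hs hn ha => ?_⟩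
  obtain ⟨L, hL⟩ : ∃ L, L = s.length + 1 := ⟨_, rfl⟩
  have hdom' := hdom a s
  rw [← hL] at hn ha hdom'
  have g1 : n1 ≤ L := ((le_max_left _ _).trans (le_max_left _ _)).trans hn
  have g3 : n3 ≤ L := ((le_max_right _ _).trans (le_max_left _ _)).trans hn
  have g4 : n4 ≤ L := ((le_max_left _ _).trans ((le_max_left _ _).trans (le_max_right _ _))).trans hn
  have g5 : n5 ≤ L := ((le_max_right _ _).trans ((le_max_left _ _).trans (le_max_right _ _))).trans hn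
  have g6 : J + 1 ≤ L := ((le_max_left _ _).trans ((le_max_right _ _).trans (le_max_right _ _))).trans hn
  have g7 : J0 ≤ L := ((le_max_left _ _).trans ((le_max_right _ _).trans ((le_max_right _ _).trans
    (le_max_right _ _)))).trans hn
  have g8 : 4 ≤ L := ((le_max_right _ _).trans ((le_max_right _ _).trans ((le_max_right _ _).trans
    (le_max_right _ _)))).trans hn
  have hd1 := hdom' g1 ha
  have ha3 : L ^ (1 + 1 + 1) ≤ a := (Nat.pow_le_pow_right (by omega) (by omega)).trans ha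
  have hρ := hn3 L g3 a ha3
  rw [pow_one] at hρ
  have L1 : (1 : ℝ) ≤ L := by exact_mod_cast (by omega : 1 ≤ L)
  have L0 : (0 : ℝ) < L := by linarith
  obtain ⟨b, hb⟩ : ∃ b : ℝ, b = 1 + (((L : ℝ) + J) ^ 1)⁻¹ := ⟨_, rfl⟩
  have b0 : 0 < b := by rw [hb]; positivity
  have haL : L + 2 ≤ a := by
    have h1 : L ^ 2 ≤ L ^ (D + 1) := Nat.pow_le_pow_right (by omega) (by omega)
    nlinarith
  have haL' : s.length + 3 ≤ a := by omega
  obtain ⟨hZ0, -, hdiff⟩ := hval a s (J + 1) hs haL'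
  rw [← hL] at hdiff
  have ha2 : 2 ≤ a := by omega
  have hZs : HasSum (wt a s) (val (a :: s)) := wt_sum ha2 hs
  obtain ⟨Z, hZe⟩ : ∃ Z, Z = val (a :: s) := ⟨_, rfl⟩
  rw [← hZe] at hZ0 hdiff hZs ⊢
  obtain ⟨h0, hh0⟩ : ∃ h0, h0 = H s s.length := ⟨_, rfl⟩
  have h0p : 0 < h0 := by rw [hh0]; exact H_pos s _ le_rfl
  have h01 : h0 ≤ 1 := by rw [hh0]; exact H_base_le s
  obtain ⟨Λ, hΛ⟩ : ∃ Λ : ℝ, Λ = (L : ℝ) ^ a := ⟨_, rfl⟩
  obtain ⟨R, hR⟩ : ∃ R : ℝ, R = (L : ℝ) + J + 1 := ⟨_, rfl⟩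
  have hR0 : 0 < R := by rw [hR]; positivity
  have hRL : R ≤ (L : ℝ) ^ 2 := by
    have : L + J + 1 ≤ L ^ 2 := by nlinarith
    rw [hR]
    exact_mod_cast this
  have hZup : Z ≤ c2 * h0 * ((L : ℝ) ^ (L + 2) * Λ⁻¹) := by
    have := (tail_le haL' (C := 1) zero_le_one hZs (fun j => ⟨(wt_pos a s j).le, by rw [one_mul]⟩) 0).2
    rw [Finset.sum_range_zero, sub_zero, one_mul] at this
    refine this.trans (le_of_eq ?_)
    unfold tb
    rw [hΛ, hh0, add_zero, ← hL, show s.length + 3 = L + 2 by omega]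
  have hZlo : Z⁻¹ ≤ Λ * h0⁻¹ := by
    have := (tail_le haL' (C := 1) zero_le_one hZs (fun j => ⟨(wt_pos a s j).le, by rw [one_mul]⟩) 1).1
    rw [Finset.sum_range_one] at this
    have e : wt a s 0 = (Λ * h0⁻¹)⁻¹ := by
      unfold wt
      rw [hΛ, hh0, add_zero, add_zero, ← hL, mul_inv, inv_inv]
    rw [e] at this
    have h2 : 0 < Λ * h0⁻¹ := mul_pos (by rw [hΛ]; positivity) (inv_pos.2 h0p)
    rw [inv_le_comm₀ hZ0 h2]
    linarith
  have htb : tb a s (J + 1) = c2 * h0 * (R ^ (L + 2) * (R ^ a)⁻¹) := by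
    unfold tb
    have : ((s.length + 1 + (J + 1) : ℕ) : ℝ) = R := by
      rw [hR, ← hL]
      push_cast
      ring
    rw [this, hh0, show s.length + 3 = L + 2 by omega]
  obtain ⟨M0, hM0⟩ : ∃ M0 : ℝ, M0 = ((L + J0 : ℕ) : ℝ) ^ a := ⟨_, rfl⟩
  rw [← hM0, ← hh0] at hd1
  have hbase := base_ineq (D := 1) (by omega : 1 ≤ L) g7 hJ le_rfl
  rw [← hb, ← hR] at hbase
  rw [← hb] at hρ
  have M0p : 0 < M0 := by rw [hM0]; positivity
  have Λp : 0 < Λ := by rw [hΛ]; positivity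
  have hM0' : M0 ^ d = (((L : ℝ) + J0) ^ d) ^ a := by
    rw [hM0]
    push_cast
    rw [← pow_mul, ← pow_mul, mul_comm]
  have hb1 : M0 ^ d * Λ * b ^ a ≤ Λ ^ d * R ^ a := by
    have h1 := pow_le_pow_left₀ (by positivity) hbase a
    rw [mul_pow, mul_pow, mul_pow] at h1
    rw [hM0', hΛ, ← pow_mul (L : ℝ) a d, mul_comm a d, pow_mul]
    exact h1
  have hb2 : M0 ^ d * b ^ a ≤ Λ ^ (d + 1) := by
    have h1 : ((L : ℝ) + J0) ^ d * b ≤ (L : ℝ) ^ (d + 1) := by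
      refine le_of_mul_le_mul_right ?_ L0
      calc ((L : ℝ) + J0) ^ d * b * L = ((L : ℝ) + J0) ^ d * L * b := by ring
        _ ≤ (L : ℝ) ^ d * R := hbase
        _ ≤ (L : ℝ) ^ d * (L : ℝ) ^ 2 := mul_le_mul_of_nonneg_left hRL (by positivity)
        _ = _ := by ring
    have h2 := pow_le_pow_left₀ (by positivity) h1 a
    rw [mul_pow] at h2
    rw [hM0', hΛ, ← pow_mul (L : ℝ) a (d + 1), mul_comm a (d + 1), pow_mul]
    exact h2
  have c20 : 0 < c2 := lt_of_lt_of_le one_pos c2_pos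
  have n4L : 4 * C1 * c2 ^ (d + 1) ≤ L := hn4.trans (by exact_mod_cast g4)
  have n5L : 4 * E * c2 ^ (d + 1) ≤ L := hn5.trans (by exact_mod_cast g5)
  have x1 : (L + 2) * d ≤ 3 * L * D := Nat.mul_le_mul (by omega) hd
  have x2 : (L + 2) * (d + 1) ≤ 3 * L * (D + 1) := Nat.mul_le_mul (by omega) (by omega)
  have x3 : K ≤ K * L := Nat.le_mul_of_pos_right _ (by omega)
  have hk1 : 4 * C1 * c2 ^ (d + 1) * ((L : ℝ) ^ (L + 2)) ^ d * R ^ (L + 2) * (L : ℝ) ^ K ≤ b ^ a := by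
    refine le_trans ?_ hρ
    calc 4 * C1 * c2 ^ (d + 1) * ((L : ℝ) ^ (L + 2)) ^ d * R ^ (L + 2) * (L : ℝ) ^ K
        ≤ L * ((L : ℝ) ^ (L + 2)) ^ d * ((L : ℝ) ^ 2) ^ (L + 2) * (L : ℝ) ^ K := by gcongr
      _ = (L : ℝ) ^ (1 + (L + 2) * d + 2 * (L + 2) + K) := pw1 _ _ _ _
      _ ≤ _ := by
          refine pow_le_pow_right₀ L1 ?_
          calc 1 + (L + 2) * d + 2 * (L + 2) + K ≤ 3 * L * D + 7 * L + K * L := by omega
            _ = _ := by ring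
  have hk2 : 4 * E * c2 ^ (d + 1) * ((L : ℝ) ^ (L + 2)) ^ (d + 1) * (L : ℝ) ^ K ≤ b ^ a := by
    refine le_trans ?_ hρ
    calc 4 * E * c2 ^ (d + 1) * ((L : ℝ) ^ (L + 2)) ^ (d + 1) * (L : ℝ) ^ K
        ≤ L * ((L : ℝ) ^ (L + 2)) ^ (d + 1) * (L : ℝ) ^ K := by gcongr
      _ = (L : ℝ) ^ (1 + (L + 2) * (d + 1) + K) := pw2 _ _ _ _
      _ ≤ _ := by
          refine pow_le_pow_right₀ L1 ?_
          have x4 : 3 * L * (D + 1) = 3 * L * D + 3 * L := by ring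
          calc 1 + (L + 2) * (d + 1) + K ≤ 3 * L * D + 7 * L + K * L := by omega
            _ = _ := by ring
  have LKp : (0 : ℝ) < (L : ℝ) ^ K := by positivity
  have r1 := ar1 (c := c2) (C1 := C1) h0p Λp M0p (pow_pos hR0 a) LKp hb1 hk1
  have r2 := ar2 (c := c2) (E := E) h0p h01 hE c20.le (by positivity) Λp M0p LKp hb2 hk2
  have r3 : Z ^ d * (C1 * (tb a s (J + 1) / Z)) ≤ 1 / 4 * (((L : ℝ) ^ K)⁻¹ * (M0⁻¹ * h0) ^ d) := by
    refine le_trans ?_ r1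
    rw [htb, div_eq_mul_inv]
    have t0 : 0 ≤ c2 * h0 * (R ^ (L + 2) * (R ^ a)⁻¹) := by positivity
    calc Z ^ d * (C1 * (c2 * h0 * (R ^ (L + 2) * (R ^ a)⁻¹) * Z⁻¹))
        = (Z ^ d * (C1 * (c2 * h0 * (R ^ (L + 2) * (R ^ a)⁻¹)))) * Z⁻¹ := by ring
      _ ≤ ((c2 * h0 * ((L : ℝ) ^ (L + 2) * Λ⁻¹)) ^ d * (C1 * (c2 * h0 * (R ^ (L + 2) * (R ^ a)⁻¹)))) *
          (Λ * h0⁻¹) := by
          refine mul_le_mul ?_ hZlo (by positivity) (by positivity)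
          exact mul_le_mul_of_nonneg_right (pow_le_pow_left₀ hZ0.le hZup d) (by positivity)
      _ = _ := by ring
  have r4 : E * Z ^ (d + 1) ≤ 1 / 4 * (((L : ℝ) ^ K)⁻¹ * (M0⁻¹ * h0) ^ d) := by
    refine le_trans ?_ r2
    exact mul_le_mul_of_nonneg_left (pow_le_pow_left₀ hZ0.le hZup (d + 1)) hE
  obtain ⟨q, hq⟩ : ∃ q : ℝ, q = ((L : ℝ) ^ K)⁻¹ * (M0⁻¹ * h0) ^ d := ⟨_, rfl⟩
  rw [← hq] at r3 r4
  have e5 : ((L : ℝ) ^ K)⁻¹ / 2 * (M0⁻¹ * h0) ^ d = q / 2 := by rw [hq]; ring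
  rw [e5] at hd1
  have h7 := abs_sub_abs_le_abs_sub (eval (fun u => ∑ j : Fin (J + 1), T (W u) (L + j) * wt a s j) P)
    (eval (fun u => val ((W u).reverse ++ a :: s)) P)
  rw [abs_sub_comm] at h7
  linarith [hdiff.trans r3]

end Pool.Agent.U623.HA
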