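import Pool.Agent.U623.HA.Dich

/-! # The expansion of a polynomial in tails -/

set_option autoImplicit false

open Filter Topology MvPolynomial

namespace Pool.Agent.U623.HA

open Pool.Agent.U623.HF

variable {σ : Type*}

/-- the linear form `∑_j T_{W u}(L + j) X_j` -/
noncomputable def lin (W : σ → List ℕ) (J L : ℕ) (u : σ) : MvPolynomial (Fin (J + 1)) ℝ :=
  ∑ j : Fin (J + 1), C (T (W u) (L + j)) * X j

noncomputable def G (W : σ → List ℕ) (J L : ℕ) (P : MvPolynomial σ ℝ) : MvPolynomial (Fin (J + 1)) ℝ :=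
  aeval (lin W J L) P

lemma G_eval (W : σ → List ℕ) (J L : ℕ) (P : MvPolynomial σ ℝ) (ε : Fin (J + 1) → ℝ) :
    eval ε (G W J L P) = eval (fun u => ∑ j : Fin (J + 1), T (W u) (L + j) * ε j) P := by
  induction P using MvPolynomial.induction_on with
  | C a => simp [G]
  | add p q hp hq =>
    unfold G at *
    rw [map_add, map_add, hp, hq, map_add]
  | mul_X p u hp =>
    unfold G at *
    rw [map_mul, map_mul, hp, aeval_X, map_mul, eval_X]
    congr 1
    unfold lin
    rw [map_sum]
    refine Finset.sum_congr rfl fun j _ => ?_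
    rw [map_mul, eval_C, eval_X]

lemma G_hom (W : σ → List ℕ) (J L : ℕ) {P : MvPolynomial σ ℝ} {d : ℕ} (h : P.IsHomogeneous d) :
    (G W J L P).IsHomogeneous d := by
  have h1 : ∀ u, (lin W J L u).IsHomogeneous 1 := by
    intro u
    unfold lin
    refine IsHomogeneous.sum _ _ _ fun j _ => ?_
    have := (isHomogeneous_C (Fin (J + 1)) (T (W u) (L + j))).mul (isHomogeneous_X ℝ j)
    simpa using this
  have h2 := h.aeval (lin W J L) h1
  rw [one_mul] at h2
  exact h2

lemma G_cl (W : σ → List ℕ) (hW : ∀ u, RA (W u)) (J : ℕ) (P : MvPolynomial σ ℝ) :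
    ∀ α, Cl (fun L => coeff α (G W J L P)) := by
  classical
  induction P using MvPolynomial.induction_on with
  | C a =>
    intro α
    refine (Cl.cst (if 0 = α then a else 0)).congr fun L _ => ?_
    unfold G
    rw [aeval_C, algebraMap_eq, coeff_C]
  | add p q hp hq =>
    intro α
    refine ((hp α).add (hq α)).congr fun L _ => ?_
    unfold G
    rw [map_add, coeff_add]
  | mul_X p u hp =>
    intro α
    have h1 : Cl (fun L => ∑ j : Fin (J + 1), T (W u) (L + j) *
        (if j ∈ α.support then coeff (α - Finsupp.single j 1) (G W J L p) else 0)) := by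
      refine Cl.sum _ _ fun j _ => ?_
      refine (((Cl.of (PT_T (hW u))).shifts (j : ℕ))).mul ?_
      by_cases hj : j ∈ α.support
      · simp only [if_pos hj]
        exact hp _
      · simp only [if_neg hj]
        exact Cl.cst 0
    refine h1.congr fun L _ => ?_
    unfold G
    rw [map_mul, aeval_X]
    unfold lin
    rw [Finset.mul_sum, coeff_sum]
    refine Finset.sum_congr rfl fun j _ => ?_
    rw [mul_left_comm, coeff_C_mul, coeff_mul_X']

lemma span_aux (W : σ → List ℕ) (hW : ∀ u, RA (W u)) (hinj : Function.Injective W) (V : Finset σ) :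
    Submodule.span ℝ (Set.range fun m : ℕ => (fun u : V => T (W u) (m + 1))) = ⊤ := by
  classical
  by_contra hne
  have hlt : Submodule.span ℝ (Set.range fun m : ℕ => (fun u : V => T (W u) (m + 1))) < ⊤ :=
    lt_top_iff_ne_top.2 hne
  obtain ⟨f, hf, hm⟩ := Submodule.exists_dual_map_eq_bot_of_lt_top hlt inferInstance
  apply hf
  have h0 : ∀ m : ℕ, f (fun u : V => T (W u) (m + 1)) = 0 := by
    intro m
    have h1 : f (fun u : V => T (W u) (m + 1)) ∈
        (Submodule.span ℝ (Set.range fun m : ℕ => (fun u : V => T (W u) (m + 1)))).map f :=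
      Submodule.mem_map_of_mem (Submodule.subset_span ⟨m, rfl⟩)
    rw [hm] at h1
    exact (Submodule.mem_bot ℝ).1 h1
  obtain ⟨c, hc⟩ : ∃ c : V → ℝ, c = fun u => f fun j => if u = j then 1 else 0 := ⟨_, rfl⟩
  have h2 : ∀ m : ℕ, ∑ u : V, c u * T (W u) (m + 1) = 0 := by
    intro m
    rw [← h0 m, LinearMap.pi_apply_eq_sum_univ f]
    refine Finset.sum_congr rfl fun u _ => ?_
    rw [hc, smul_eq_mul, mul_comm]
  obtain ⟨c', hc'⟩ : ∃ c' : List ℕ → ℝ, c' = fun w => if h : ∃ u : V, W u = w then c h.choose else 0 := ⟨_, rfl⟩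
  have hcu : ∀ u : V, c' (W u) = c u := by
    intro u
    have hex : ∃ v : V, W v = W u := ⟨u, rfl⟩
    rw [hc']
    simp only [dif_pos hex]
    congr 1
    exact Subtype.ext (hinj hex.choose_spec)
  have h3 := indep (V.image W) (by
    intro w hw
    obtain ⟨u, _, rfl⟩ := Finset.mem_image.1 hw
    exact hW u) c' (by
    have h4 : ∀ᶠ m : ℕ in atTop, (fun _ => (0 : ℝ)) m = (fun m => ∑ w ∈ V.image W, c' w * T w m) m := by
      filter_upwards [eventually_ge_atTop 1] with m hm
      obtain ⟨n, rfl⟩ : ∃ n, m = n + 1 := ⟨m - 1, by omega⟩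
      rw [Finset.sum_image fun x _ y _ h => hinj h, ← h2 n, ← Finset.sum_coe_sort V]
      refine Finset.sum_congr rfl fun u _ => ?_
      rw [hcu]
    refine negl_congr (fun J => ?_) h4
    exact Asymptotics.isBigO_zero _ _)
  have h5 : ∀ u : V, c u = 0 := fun u => by
    rw [← hcu]
    exact h3 _ (Finset.mem_image_of_mem _ u.2)
  ext u
  have h6 := h5 u
  rw [hc] at h6
  simp only [LinearMap.coe_comp, Function.comp_apply, LinearMap.coe_single, LinearMap.zero_apply]
  have h7 : (fun j => if u = j then (1 : ℝ) else 0) = Pi.single u 1 := by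
    funext j
    rw [Pi.single_apply]
    by_cases h : u = j
    · rw [if_pos h, if_pos h.symm]
    · rw [if_neg h, if_neg (Ne.symm h)]
  rw [← h7]
  exact h6

theorem span_main (W : σ → List ℕ) (hW : ∀ u, RA (W u)) (hinj : Function.Injective W)
    (P : MvPolynomial σ ℝ) (hP : P ≠ 0) : ∃ J0 : ℕ, ∀ J, J0 ≤ J → ∃ α : Fin (J + 1) →₀ ℕ,
      coeff α (G W J 1 P) ≠ 0 ∧ ∀ j : Fin (J + 1), J0 < (j : ℕ) → α j = 0 := by
  classical
  obtain ⟨y, hy⟩ : ∃ y : σ → ℝ, eval y P ≠ 0 := by
    by_contra hcon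
    push Not at hcon
    exact hP (MvPolynomial.funext fun y => by rw [hcon y, map_zero])
  have h1 : (fun u : P.vars => y u) ∈ Submodule.span ℝ
      (Set.range fun m : ℕ => (fun u : P.vars => T (W u) (m + 1))) := by
    rw [span_aux W hW hinj]
    trivial
  rw [Finsupp.mem_span_range_iff_exists_finsupp] at h1
  obtain ⟨c, hc⟩ := h1
  refine ⟨c.support.sup id, fun J hJ => ?_⟩
  have hsup : ∀ m ∈ c.support, m ≤ c.support.sup id := fun m hm => Finset.le_sup (f := id) hm
  have h2 : eval (fun u => ∑ j : Fin (J + 1), T (W u) (1 + j) * c j) P = eval y P := by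
    refine eval₂Hom_congr' rfl (fun u hu _ => ?_) rfl
    have h3 := congrFun hc ⟨u, hu⟩
    rw [Finsupp.sum, Finset.sum_apply] at h3
    simp only [Pi.smul_apply, smul_eq_mul] at h3
    rw [← h3, Fin.sum_univ_eq_sum_range (fun j => T (W u) (1 + j) * c j) (J + 1)]
    have h4 : ∑ m ∈ c.support, T (W u) (1 + m) * c m = ∑ m ∈ Finset.range (J + 1), T (W u) (1 + m) * c m :=
      Finset.sum_subset (fun m hm => Finset.mem_range.2 (Nat.lt_succ_of_le ((hsup m hm).trans hJ)))
        fun m _ hm => by rw [Finsupp.notMem_support_iff.1 hm, mul_zero]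
    rw [← h4]
    refine Finset.sum_congr rfl fun m _ => ?_
    rw [mul_comm, add_comm]
  rw [← G_eval W J 1 P (fun j => c j), eval_eq'] at h2
  have h3 : ∑ α ∈ (G W J 1 P).support, coeff α (G W J 1 P) * ∏ j : Fin (J + 1), c j ^ α j ≠ 0 := by
    rw [h2]
    exact hy
  obtain ⟨α, _, hα⟩ := Finset.exists_ne_zero_of_sum_ne_zero h3
  refine ⟨α, left_ne_zero_of_mul hα, fun j hj => ?_⟩
  by_contra hne
  apply right_ne_zero_of_mul hα
  refine Finset.prod_eq_zero (Finset.mem_univ j) ?_
  have : c j = 0 := by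
    by_contra h
    exact absurd (hsup j (Finsupp.mem_support_iff.2 h)) (by omega)
  rw [this, zero_pow hne]

/-- expansion over a fixed finite set of exponents -/
lemma G_expand (W : σ → List ℕ) (J L : ℕ) {P : MvPolynomial σ ℝ} {d : ℕ} (h : P.IsHomogeneous d)
    (ε : Fin (J + 1) → ℝ) :
    eval (fun u => ∑ j : Fin (J + 1), T (W u) (L + j) * ε j) P =
      ∑ α ∈ Finset.finsuppAntidiag (Finset.univ : Finset (Fin (J + 1))) d,
        coeff α (G W J L P) * ∏ j, ε j ^ α j := by
  classical
  rw [← G_eval, eval_eq']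
  refine Finset.sum_subset (fun α hα => ?_) fun α _ hα => ?_
  · rw [Finset.mem_finsuppAntidiag]
    refine ⟨?_, Finset.subset_univ _⟩
    have h1 := G_hom W J L h (mem_support_iff.1 hα)
    rw [Finsupp.weight_apply] at h1
    rw [← h1, Finsupp.sum_fintype _ _ (by simp)]
    simp
  · rw [notMem_support_iff.1 hα, zero_mul]

end Pool.Agent.U623.HA
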